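import Pool.Agent.K4H10.BR.Abs3

set_option autoImplicit false
set_option linter.unusedSectionVars false

/-! # Quadratic forms for several shifts: three-term expansions -/

namespace Pool.Agent.K4H10.MT

open Finset Pool.Agent.K4H10.BR

variable {ι : Type} [Fintype ι] [DecidableEq ι] {α : ι → Type} [∀ i, Fintype (α i)]
  [∀ i, DecidableEq (α i)]

/-- `Y` on `s`, `X` on `a`, `W` elsewhere -/
def tri (a s : Finset ι) (X Y W : ∀ i, α i → α i → ℝ) : ∀ i, α i → α i → ℝ :=
  mix s Y (mix a X W)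

theorem prod_tri (a s : Finset ι) (has : a ⊆ sᶜ) (X Y W : ∀ i, α i → α i → ℝ)
    (η θ : ∀ i, α i) :
    ∏ i, tri a s X Y W i (η i) (θ i) = (∏ i ∈ s, Y i (η i) (θ i)) *
      ((∏ i ∈ a, X i (η i) (θ i)) * ∏ i ∈ sᶜ \ a, W i (η i) (θ i)) := by
  rw [← Finset.prod_mul_prod_compl s]
  congr 1
  · refine Finset.prod_congr rfl fun i hi => ?_
    simp [tri, mix, hi]
  · have h : sᶜ = (sᶜ \ a) ∪ a := by
      rw [Finset.sdiff_union_self_eq_union, Finset.union_eq_left.2 has]
    conv_lhs => rw [h]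
    rw [Finset.prod_union Finset.sdiff_disjoint, mul_comm]
    congr 1
    · refine Finset.prod_congr rfl fun i hi => ?_
      have h1 : i ∉ s := Finset.mem_compl.1 (has hi)
      simp [tri, mix, h1, hi]
    · refine Finset.prod_congr rfl fun i hi => ?_
      rw [Finset.mem_sdiff, Finset.mem_compl] at hi
      simp [tri, mix, hi.1, hi.2]

theorem sum_tri_inner (s : Finset ι) (X Y W : ∀ i, α i → α i → ℝ) (η θ : ∀ i, α i) :
    ∑ a ∈ sᶜ.powerset, ∏ i, tri a s X Y W i (η i) (θ i) =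
      ∏ i, mix s Y (fun i a b => X i a b + W i a b) i (η i) (θ i) := by
  rw [← Finset.prod_mul_prod_compl s]
  have h1 : ∏ i ∈ s, mix s Y (fun i a b => X i a b + W i a b) i (η i) (θ i) =
      ∏ i ∈ s, Y i (η i) (θ i) :=
    Finset.prod_congr rfl fun i hi => by simp [mix, hi]
  have h2 : ∏ i ∈ sᶜ, mix s Y (fun i a b => X i a b + W i a b) i (η i) (θ i) =
      ∏ i ∈ sᶜ, (X i (η i) (θ i) + W i (η i) (θ i)) :=
    Finset.prod_congr rfl fun i hi => by
      have : i ∉ s := Finset.mem_compl.1 hi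
      simp [mix, this]
  rw [h1, h2, Finset.prod_add, Finset.mul_sum]
  refine Finset.sum_congr rfl fun a ha => ?_
  rw [prod_tri a s (Finset.mem_powerset.1 ha)]

theorem sum_tri (X Y W : ∀ i, α i → α i → ℝ) (η θ : ∀ i, α i) :
    ∑ s ∈ (univ : Finset ι).powerset, ∑ a ∈ sᶜ.powerset, ∏ i, tri a s X Y W i (η i) (θ i) =
      ∏ i, (X i (η i) (θ i) + Y i (η i) (θ i) + W i (η i) (θ i)) := by
  simp_rw [sum_tri_inner]
  rw [sum_mix]
  exact Finset.prod_congr rfl fun i _ => by ring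

/-- the alternating version of `sum_tri_inner` -/
theorem sum_tri_inner_neg (s : Finset ι) (X Y W : ∀ i, α i → α i → ℝ) (η θ : ∀ i, α i) :
    ∑ a ∈ sᶜ.powerset, (-1 : ℝ) ^ a.card * ∏ i, tri a s X Y W i (η i) (θ i) =
      ∏ i, mix s Y (fun i a b => W i a b - X i a b) i (η i) (θ i) := by
  have h := sum_tri_inner s (fun i a b => - X i a b) Y W η θ
  have h2 : ∏ i, mix s Y (fun i a b => - X i a b + W i a b) i (η i) (θ i) =
      ∏ i, mix s Y (fun i a b => W i a b - X i a b) i (η i) (θ i) := by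
    refine Finset.prod_congr rfl fun i _ => ?_
    unfold mix
    split_ifs
    · rfl
    · ring
  rw [← h2, ← h]
  refine Finset.sum_congr rfl fun a ha => ?_
  rw [prod_tri a s (Finset.mem_powerset.1 ha), prod_tri a s (Finset.mem_powerset.1 ha)]
  have h4 : ∏ i ∈ a, -X i (η i) (θ i) = (-1 : ℝ) ^ a.card * ∏ i ∈ a, X i (η i) (θ i) := by
    rw [Finset.prod_neg]
  rw [h4]
  ring

theorem sum_tri_mem_a (X Y W : ∀ i, α i → α i → ℝ) (i : ι) (η θ : ∀ i, α i) :
    ∑ s ∈ (univ : Finset ι).powerset, ∑ a ∈ sᶜ.powerset,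
      (if i ∈ a then ∏ j, tri a s X Y W j (η j) (θ j) else 0) =
      ∏ j, (if j = i then X j (η j) (θ j) else
        X j (η j) (θ j) + Y j (η j) (θ j) + W j (η j) (θ j)) := by
  have h := sum_tri X (fun j a b => if j = i then 0 else Y j a b)
    (fun j a b => if j = i then 0 else W j a b) η θ
  have h2 : ∏ j, (X j (η j) (θ j) + (if j = i then 0 else Y j (η j) (θ j)) +
      (if j = i then 0 else W j (η j) (θ j))) =
      ∏ j, (if j = i then X j (η j) (θ j) else
        X j (η j) (θ j) + Y j (η j) (θ j) + W j (η j) (θ j)) := by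
    refine Finset.prod_congr rfl fun j _ => ?_
    split_ifs <;> ring
  rw [← h2, ← h]
  refine Finset.sum_congr rfl fun s _ => Finset.sum_congr rfl fun a ha => ?_
  have has := Finset.mem_powerset.1 ha
  split_ifs with hi
  · refine Finset.prod_congr rfl fun j _ => ?_
    unfold tri mix
    have his : i ∉ s := Finset.mem_compl.1 (has hi)
    by_cases hj : j ∈ s
    · have : j ≠ i := fun h => his (h ▸ hj)
      simp [hj, this]
    · by_cases hja : j ∈ a
      · simp [hj, hja]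
      · have : j ≠ i := fun h => hja (h ▸ hi)
        simp [hj, hja, this]
  · symm
    apply Finset.prod_eq_zero (Finset.mem_univ i)
    unfold tri mix
    by_cases hj : i ∈ s
    · simp [hj]
    · simp [hj, hi]

theorem sum_tri_mem_s (X Y W : ∀ i, α i → α i → ℝ) (i : ι) (η θ : ∀ i, α i) :
    ∑ s ∈ (univ : Finset ι).powerset, ∑ a ∈ sᶜ.powerset,
      (if i ∈ s then ∏ j, tri a s X Y W j (η j) (θ j) else 0) =
      ∏ j, (if j = i then Y j (η j) (θ j) else
        X j (η j) (θ j) + Y j (η j) (θ j) + W j (η j) (θ j)) := by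
  have h := sum_tri (fun j a b => if j = i then 0 else X j a b) Y
    (fun j a b => if j = i then 0 else W j a b) η θ
  have h2 : ∏ j, ((if j = i then 0 else X j (η j) (θ j)) + Y j (η j) (θ j) +
      (if j = i then 0 else W j (η j) (θ j))) =
      ∏ j, (if j = i then Y j (η j) (θ j) else
        X j (η j) (θ j) + Y j (η j) (θ j) + W j (η j) (θ j)) := by
    refine Finset.prod_congr rfl fun j _ => ?_
    split_ifs <;> ring
  rw [← h2, ← h]
  refine Finset.sum_congr rfl fun s _ => Finset.sum_congr rfl fun a ha => ?_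
  have has := Finset.mem_powerset.1 ha
  split_ifs with hi
  · refine Finset.prod_congr rfl fun j _ => ?_
    unfold tri mix
    by_cases hj : j ∈ s
    · simp [hj]
    · have : j ≠ i := fun h => hj (h ▸ hi)
      simp [hj, this]
  · symm
    apply Finset.prod_eq_zero (Finset.mem_univ i)
    unfold tri mix
    by_cases hja : i ∈ a
    · simp [hi, hja]
    · simp [hi, hja]

section three

variable (X Y W : ∀ i, α i → α i → ℝ)
  (hXYW : ∀ i a b, X i a b + Y i a b + W i a b = one i a b) (V : (∀ i, α i) → ℝ)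

include hXYW

theorem sum_Φ_tri : ∑ s ∈ (univ : Finset ι).powerset, ∑ a ∈ sᶜ.powerset, Φ (tri a s X Y W) V =
    ∑ η, V η ^ 2 := by
  rw [← Φ_one]
  unfold Φ
  have h1 : ∀ s ∈ (univ : Finset ι).powerset, ∑ a ∈ sᶜ.powerset, ∑ η, ∑ θ, V η * V θ *
      ∏ i, tri a s X Y W i (η i) (θ i) =
      ∑ η, ∑ θ, V η * V θ * ∑ a ∈ sᶜ.powerset, ∏ i, tri a s X Y W i (η i) (θ i) := by
    intro s _
    rw [Finset.sum_comm]
    refine Finset.sum_congr rfl fun η _ => ?_
    rw [Finset.sum_comm]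
    refine Finset.sum_congr rfl fun θ _ => ?_
    rw [Finset.mul_sum]
  rw [Finset.sum_congr rfl h1, Finset.sum_comm]
  refine Finset.sum_congr rfl fun η _ => ?_
  rw [Finset.sum_comm]
  refine Finset.sum_congr rfl fun θ _ => ?_
  rw [← Finset.mul_sum, sum_tri]
  simp_rw [hXYW]

theorem sum_ell_Φ_tri_a (ell : ι → ℝ) :
    ∑ s ∈ (univ : Finset ι).powerset, ∑ a ∈ sᶜ.powerset,
      (∑ i ∈ a, ell i) * Φ (tri a s X Y W) V = ∑ i, ell i * Φ (at1 i X) V := by
  have h1 : ∀ s a : Finset ι, (∑ i ∈ a, ell i) * Φ (tri a s X Y W) V =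
      ∑ i, if i ∈ a then ell i * Φ (tri a s X Y W) V else 0 := by
    intro s a
    rw [Finset.sum_mul, Finset.sum_ite_mem, Finset.univ_inter]
  simp_rw [h1]
  have h2 : ∀ s ∈ (univ : Finset ι).powerset, ∑ a ∈ sᶜ.powerset,
      ∑ i, (if i ∈ a then ell i * Φ (tri a s X Y W) V else 0) =
      ∑ i, ∑ a ∈ sᶜ.powerset, (if i ∈ a then ell i * Φ (tri a s X Y W) V else 0) := by
    intro s _
    rw [Finset.sum_comm]
  rw [Finset.sum_congr rfl h2, Finset.sum_comm]
  refine Finset.sum_congr rfl fun i _ => ?_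
  have h3 : Φ (at1 i X) V = ∑ η, ∑ θ, V η * V θ * ∏ j, (if j = i then X j (η j) (θ j) else
        X j (η j) (θ j) + Y j (η j) (θ j) + W j (η j) (θ j)) := by
    unfold Φ
    refine Finset.sum_congr rfl fun η _ => Finset.sum_congr rfl fun θ _ => ?_
    congr 1
    refine Finset.prod_congr rfl fun j _ => ?_
    unfold at1
    split_ifs with hj
    · rfl
    · exact (hXYW _ _ _).symm
  rw [h3]
  simp_rw [← sum_tri_mem_a X Y W i]
  rw [Finset.mul_sum]
  unfold Φ
  simp_rw [Finset.mul_sum]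
  -- move the sums over `η`, `θ` outside
  have h4 : ∀ s a : Finset ι, (if i ∈ a then ∑ η, ∑ θ, ell i * (V η * V θ *
      ∏ j, tri a s X Y W j (η j) (θ j)) else 0) =
      ∑ η, ∑ θ, ell i * (V η * V θ *
        (if i ∈ a then ∏ j, tri a s X Y W j (η j) (θ j) else 0)) := by
    intro s a
    split_ifs
    · rfl
    · simp
  simp_rw [h4]
  have h5 : ∀ s ∈ (univ : Finset ι).powerset, ∑ a ∈ sᶜ.powerset, ∑ η, ∑ θ, ell i * (V η * V θ *
        (if i ∈ a then ∏ j, tri a s X Y W j (η j) (θ j) else 0)) =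
      ∑ η, ∑ θ, ∑ a ∈ sᶜ.powerset, ell i * (V η * V θ *
        (if i ∈ a then ∏ j, tri a s X Y W j (η j) (θ j) else 0)) := by
    intro s _
    rw [Finset.sum_comm]
    refine Finset.sum_congr rfl fun η _ => ?_
    rw [Finset.sum_comm]
  rw [Finset.sum_congr rfl h5, Finset.sum_comm]
  refine Finset.sum_congr rfl fun η _ => ?_
  rw [Finset.sum_comm]

theorem sum_ell_Φ_tri_s (ell : ι → ℝ) :
    ∑ s ∈ (univ : Finset ι).powerset, ∑ a ∈ sᶜ.powerset,
      (∑ i ∈ s, ell i) * Φ (tri a s X Y W) V = ∑ i, ell i * Φ (at1 i Y) V := by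
  have h1 : ∀ s a : Finset ι, (∑ i ∈ s, ell i) * Φ (tri a s X Y W) V =
      ∑ i, if i ∈ s then ell i * Φ (tri a s X Y W) V else 0 := by
    intro s a
    rw [Finset.sum_mul, Finset.sum_ite_mem, Finset.univ_inter]
  simp_rw [h1]
  have h2 : ∀ s ∈ (univ : Finset ι).powerset, ∑ a ∈ sᶜ.powerset,
      ∑ i, (if i ∈ s then ell i * Φ (tri a s X Y W) V else 0) =
      ∑ i, ∑ a ∈ sᶜ.powerset, (if i ∈ s then ell i * Φ (tri a s X Y W) V else 0) := by
    intro s _
    rw [Finset.sum_comm]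
  rw [Finset.sum_congr rfl h2, Finset.sum_comm]
  refine Finset.sum_congr rfl fun i _ => ?_
  have h3 : Φ (at1 i Y) V = ∑ η, ∑ θ, V η * V θ * ∏ j, (if j = i then Y j (η j) (θ j) else
        X j (η j) (θ j) + Y j (η j) (θ j) + W j (η j) (θ j)) := by
    unfold Φ
    refine Finset.sum_congr rfl fun η _ => Finset.sum_congr rfl fun θ _ => ?_
    congr 1
    refine Finset.prod_congr rfl fun j _ => ?_
    unfold at1
    split_ifs with hj
    · rfl
    · exact (hXYW _ _ _).symm
  rw [h3]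
  simp_rw [← sum_tri_mem_s X Y W i]
  rw [Finset.mul_sum]
  unfold Φ
  simp_rw [Finset.mul_sum]
  have h4 : ∀ s a : Finset ι, (if i ∈ s then ∑ η, ∑ θ, ell i * (V η * V θ *
      ∏ j, tri a s X Y W j (η j) (θ j)) else 0) =
      ∑ η, ∑ θ, ell i * (V η * V θ *
        (if i ∈ s then ∏ j, tri a s X Y W j (η j) (θ j) else 0)) := by
    intro s a
    split_ifs
    · rfl
    · simp
  simp_rw [h4]
  have h5 : ∀ s ∈ (univ : Finset ι).powerset, ∑ a ∈ sᶜ.powerset, ∑ η, ∑ θ, ell i * (V η * V θ *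
        (if i ∈ s then ∏ j, tri a s X Y W j (η j) (θ j) else 0)) =
      ∑ η, ∑ θ, ∑ a ∈ sᶜ.powerset, ell i * (V η * V θ *
        (if i ∈ s then ∏ j, tri a s X Y W j (η j) (θ j) else 0)) := by
    intro s _
    rw [Finset.sum_comm]
    refine Finset.sum_congr rfl fun η _ => ?_
    rw [Finset.sum_comm]
  rw [Finset.sum_congr rfl h5, Finset.sum_comm]
  refine Finset.sum_congr rfl fun η _ => ?_
  rw [Finset.sum_comm]

end three

end Pool.Agent.K4H10.MT
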