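import Pool.Agent.K4H10.MT.A1

set_option autoImplicit false
set_option linter.unusedSectionVars false

/-! # Quadratic forms for several shifts: the upper bound -/

namespace Pool.Agent.K4H10.MT

open Finset Pool.Agent.K4H10.BR

variable {ι : Type} [Fintype ι] [DecidableEq ι] {α : ι → Type} [∀ i, Fintype (α i)]
  [∀ i, DecidableEq (α i)]

/-- the diagonal matrix of the indicator function of `a ≠ x` -/
def al (x : ∀ i, α i) : ∀ i, α i → α i → ℝ := fun i a b =>
  if a = x i then 0 else (if a = b then 1 else 0)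

/-- the projection on the indicator function of `a ≠ x` -/
noncomputable def Nn (q : ι → ℝ) (x : ∀ i, α i) : ∀ i, α i → α i → ℝ := fun i a b =>
  (if a = x i then 0 else 1) * (if b = x i then 0 else 1) / (q i - 1)

/-- the projection on the functions of mean zero, supported off `x` -/
noncomputable def Bm (q : ι → ℝ) (x : ∀ i, α i) : ∀ i, α i → α i → ℝ := fun i a b =>
  al x i a b - Nn q x i a b

theorem Φ_al (x : ∀ i, α i) (V : (∀ i, α i) → ℝ) :
    Φ (al x) V = ∑ ω with (∀ i, ω i ≠ x i), V ω ^ 2 := by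
  unfold Φ
  rw [Finset.sum_filter]
  refine Finset.sum_congr rfl fun η _ => ?_
  split_ifs with h
  · rw [Finset.sum_eq_single η]
    · have : ∏ i, al x i (η i) (η i) = 1 := by
        apply Finset.prod_eq_one
        intro i _
        simp [al, h i]
      rw [this, mul_one, sq]
    · intro θ _ hθ
      have : ∃ i, η i ≠ θ i := by
        by_contra hcon
        push Not at hcon
        exact hθ (funext fun i => (hcon i).symm)
      obtain ⟨i, hi⟩ := this
      rw [Finset.prod_eq_zero (Finset.mem_univ i) (by simp [al, hi]), mul_zero]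
    · intro h
      exact absurd (Finset.mem_univ _) h
  · push Not at h
    obtain ⟨i, hi⟩ := h
    apply Finset.sum_eq_zero
    intro θ _
    rw [Finset.prod_eq_zero (Finset.mem_univ i) (by simp [al, hi]), mul_zero]

theorem Bm_eq (q : ι → ℝ) (hq1 : ∀ i, 1 < q i) (x : ∀ i, α i) (i : ι) (a b : α i) :
    pr q x i a b + Bm q x i a b + av q i a b = one i a b := by
  have h0 : q i ≠ 0 := by linarith [hq1 i]
  have h1 : q i - 1 ≠ 0 := by linarith [hq1 i]
  unfold Bm al Nn pr one av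
  by_cases ha : a = x i
  · by_cases hb : b = x i
    · have hab : a = b := by rw [ha, hb]
      simp only [ha, hb, if_true]
      field_simp
      ring
    · have hab : ¬ a = b := fun h => hb (h ▸ ha)
      have hxb : ¬ x i = b := fun h => hb h.symm
      simp only [ha, hb, hxb, if_true, if_false]
      field_simp
      ring
  · by_cases hb : b = x i
    · have hab : ¬ a = b := fun h => ha (h ▸ hb)
      simp only [ha, hb, if_true, if_false]
      field_simp
      ring
    · by_cases hab : a = b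
      · subst hab
        simp only [ha, if_true, if_false]
        field_simp
        ring
      · simp only [ha, hb, hab, if_false]
        field_simp
        ring

theorem sum_av_pr (q : ι → ℝ) (hq : ∀ i, (Fintype.card (α i) : ℝ) = q i)
    (x : ∀ i, α i) (i : ι) (b c : α i) : ∑ a, av q i a b * pr q x i a c = 0 := by
  unfold av pr
  have h : ∀ a : α i, 1 / q i * ((q i * (if a = x i then 1 else 0) - 1) *
      (q i * (if c = x i then 1 else 0) - 1) / (q i * (q i - 1))) =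
      (q i * (if a = x i then 1 else 0) - 1) *
      (1 / q i * ((q i * (if c = x i then 1 else 0) - 1) / (q i * (q i - 1)))) := by
    intro a; ring
  simp_rw [h]
  rw [← Finset.sum_mul, sum_ind i q hq, zero_mul]

theorem Bm_proj (q : ι → ℝ) (hq : ∀ i, (Fintype.card (α i) : ℝ) = q i) (hq1 : ∀ i, 1 < q i)
    (x : ∀ i, α i) : IsProj (Bm q x) := by
  have hq0 : ∀ i, 0 < q i := fun i => by linarith [hq1 i]
  have hav : IsProj (av q : ∀ i, α i → α i → ℝ) := av_proj q hq hq0
  have hpr : IsProj (pr q x) := pr_proj q hq hq1 x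
  have hs : IsProj (fun i a b => av q i a b + pr q x i a b : ∀ i, α i → α i → ℝ) := by
    refine ⟨fun i b c => ?_, fun i a b => ?_⟩
    · have h1 : ∀ a : α i, (av q i a b + pr q x i a b) * (av q i a c + pr q x i a c) =
          av q i a b * av q i a c + pr q x i a b * pr q x i a c +
          av q i a b * pr q x i a c + av q i a c * pr q x i a b := by
        intro a; ring
      simp_rw [h1]
      rw [Finset.sum_add_distrib, Finset.sum_add_distrib, Finset.sum_add_distrib, hav.1, hpr.1,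
        sum_av_pr q hq, sum_av_pr q hq]
      ring
    · show av q i a b + pr q x i a b = av q i b a + pr q x i b a
      rw [hav.2 i a b, hpr.2 i a b]
  have he : Bm q x = fun i a b => one i a b - (av q i a b + pr q x i a b) := by
    funext i a b
    have := Bm_eq q hq1 x i a b
    linarith
  rw [he]
  exact hs.compl

/-- the row sums of `Bm` vanish -/
theorem Bm_row (q : ι → ℝ) (hq : ∀ i, (Fintype.card (α i) : ℝ) = q i) (hq1 : ∀ i, 1 < q i)
    (x : ∀ i, α i) (i : ι) (a : α i) : ∑ b, Bm q x i a b = 0 := by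
  have h1 : q i - 1 ≠ 0 := by linarith [hq1 i]
  unfold Bm al Nn
  by_cases ha : a = x i
  · simp [ha]
  · simp only [ha, if_false, one_mul]
    rw [Finset.sum_sub_distrib, ← Finset.sum_div]
    have : ∀ b : α i, (if b = x i then (0:ℝ) else 1) = 1 - (if b = x i then 1 else 0) := by
      intro b; split_ifs <;> ring
    simp_rw [this]
    rw [Finset.sum_sub_distrib, Finset.sum_const, Finset.card_univ, nsmul_eq_mul, hq]
    simp
    field_simp
    ring

/-- averaging over the points different from `x` -/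
noncomputable def Nr (q : ι → ℝ) (x : ∀ i, α i) : ∀ i, α i → α i → ℝ := fun i a b =>
  av q i a b - Zm q x i a b

theorem Nr_eq (q : ι → ℝ) (hq1 : ∀ i, 1 < q i) (x : ∀ i, α i) (i : ι) (a b : α i) :
    Nr q x i a b = (if b = x i then 0 else 1) / (q i - 1) := by
  have h0 : q i ≠ 0 := by linarith [hq1 i]
  have h1 : q i - 1 ≠ 0 := by linarith [hq1 i]
  unfold Nr av Zm
  split_ifs
  · field_simp
    ring
  · field_simp
    ring

theorem Nr_sq (q : ι → ℝ) (hq : ∀ i, (Fintype.card (α i) : ℝ) = q i) (hq1 : ∀ i, 1 < q i)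
    (x : ∀ i, α i) (i : ι) (b c : α i) :
    ∑ a, Nr q x i a b * Nr q x i a c = q i / (q i - 1) * Nn q x i b c := by
  have h1 : q i - 1 ≠ 0 := by linarith [hq1 i]
  simp_rw [Nr_eq q hq1]
  rw [Finset.sum_const, Finset.card_univ, nsmul_eq_mul, hq]
  unfold Nn
  field_simp

theorem Φ_mix_N (q : ι → ℝ) (hq : ∀ i, (Fintype.card (α i) : ℝ) = q i) (hq1 : ∀ i, 1 < q i)
    (x : ∀ i, α i) (V : (∀ i, α i) → ℝ) (s : Finset ι) :
    Φ (mix s (Bm q x) (Nn q x)) V = (∏ i ∈ sᶜ, (1 - 1 / q i)) *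
      ∑ ω, (T (mix s (Bm q x) (Nr q x)) V ω) ^ 2 := by
  have hB := Bm_proj q hq hq1 x
  rw [T_sq _ (fun i b c => (if i ∈ s then 1 else q i / (q i - 1)) *
    mix s (Bm q x) (Nn q x) i b c)]
  · unfold Φ
    rw [Finset.mul_sum]
    refine Finset.sum_congr rfl fun η _ => ?_
    rw [Finset.mul_sum]
    refine Finset.sum_congr rfl fun θ _ => ?_
    rw [Finset.prod_mul_distrib]
    have h1 : ∏ i, (if i ∈ s then 1 else q i / (q i - 1)) = ∏ i ∈ sᶜ, q i / (q i - 1) := by
      rw [← Finset.prod_mul_prod_compl s]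
      have e1 : ∏ i ∈ s, (if i ∈ s then 1 else q i / (q i - 1)) = 1 :=
        Finset.prod_eq_one fun i hi => by simp [hi]
      rw [e1, one_mul]
      exact Finset.prod_congr rfl fun i hi => by simp [Finset.mem_compl.1 hi]
    rw [h1]
    have h2 : (∏ i ∈ sᶜ, (1 - 1 / q i)) * ∏ i ∈ sᶜ, q i / (q i - 1) = 1 := by
      rw [← Finset.prod_mul_distrib]
      apply Finset.prod_eq_one
      intro i _
      have h0 : q i ≠ 0 := by linarith [hq1 i]
      have h1 : q i - 1 ≠ 0 := by linarith [hq1 i]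
      field_simp
    calc V η * V θ * ∏ i, mix s (Bm q x) (Nn q x) i (η i) (θ i) =
        ((∏ i ∈ sᶜ, (1 - 1 / q i)) * ∏ i ∈ sᶜ, q i / (q i - 1)) *
          (V η * V θ * ∏ i, mix s (Bm q x) (Nn q x) i (η i) (θ i)) := by rw [h2, one_mul]
      _ = _ := by ring
  · intro i b c
    unfold mix
    split_ifs with hi
    · rw [one_mul]; exact hB.1 i b c
    · exact Nr_sq q hq hq1 x i b c

theorem T_tri_sq (q : ι → ℝ) (hq : ∀ i, (Fintype.card (α i) : ℝ) = q i) (hq1 : ∀ i, 1 < q i)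
    (x : ∀ i, α i) (V : (∀ i, α i) → ℝ) (a s : Finset ι) (has : a ⊆ sᶜ) :
    ∑ ω, (T (tri a s (Zm q x) (Bm q x) (av q)) V ω) ^ 2 =
      (∏ i ∈ a, 1 / (q i - 1)) * Φ (tri a s (pr q x) (Bm q x) (av q)) V := by
  have hB := Bm_proj q hq hq1 x
  have hq0 : ∀ i, 0 < q i := fun i => by linarith [hq1 i]
  have hav : IsProj (av q : ∀ i, α i → α i → ℝ) := av_proj q hq hq0
  rw [T_sq _ (fun i b c => (if i ∈ a then 1 / (q i - 1) else 1) *
    tri a s (pr q x) (Bm q x) (av q) i b c)]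
  · unfold Φ
    rw [Finset.mul_sum]
    refine Finset.sum_congr rfl fun η _ => ?_
    rw [Finset.mul_sum]
    refine Finset.sum_congr rfl fun θ _ => ?_
    rw [Finset.prod_mul_distrib]
    have : ∏ i, (if i ∈ a then 1 / (q i - 1) else 1) = ∏ i ∈ a, 1 / (q i - 1) := by
      rw [Finset.prod_ite_mem, Finset.univ_inter]
    rw [this]
    ring
  · intro i b c
    unfold tri mix
    by_cases his : i ∈ s
    · have hia : i ∉ a := fun h => Finset.mem_compl.1 (has h) his
      simp only [his, hia, if_true, if_false, one_mul]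
      exact hB.1 i b c
    · by_cases hia : i ∈ a
      · simp only [his, hia, if_true, if_false]
        unfold Zm pr
        have h0 : q i ≠ 0 := by linarith [hq1 i]
        have h1 : q i - 1 ≠ 0 := by linarith [hq1 i]
        rw [Finset.sum_const, Finset.card_univ, nsmul_eq_mul, hq]
        generalize (if b = x i then (1:ℝ) else 0) = u
        generalize (if c = x i then (1:ℝ) else 0) = v
        field_simp
      · simp only [his, hia, if_false, one_mul]
        exact hav.1 i b c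

theorem tri_proj (q : ι → ℝ) (hq : ∀ i, (Fintype.card (α i) : ℝ) = q i) (hq1 : ∀ i, 1 < q i)
    (x : ∀ i, α i) (a s : Finset ι) : IsProj (tri a s (pr q x) (Bm q x) (av q)) := by
  have hq0 : ∀ i, 0 < q i := fun i => by linarith [hq1 i]
  exact (Bm_proj q hq hq1 x).mix ((pr_proj q hq hq1 x).mix (av_proj q hq hq0) a) s

theorem pr_row (q : ι → ℝ) (hq : ∀ i, (Fintype.card (α i) : ℝ) = q i)
    (x : ∀ i, α i) (i : ι) (a : α i) : ∑ b, pr q x i a b = 0 := by
  unfold pr
  have h : ∀ b : α i, (q i * (if a = x i then 1 else 0) - 1) *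
      (q i * (if b = x i then 1 else 0) - 1) / (q i * (q i - 1)) =
      (q i * (if b = x i then 1 else 0) - 1) *
      ((q i * (if a = x i then 1 else 0) - 1) / (q i * (q i - 1))) := by
    intro b; ring
  simp_rw [h]
  rw [← Finset.sum_mul, sum_ind i q hq, zero_mul]

/-- the components outside the level vanish -/
theorem Φ_tri_zero (q : ι → ℝ) (hq : ∀ i, (Fintype.card (α i) : ℝ) = q i) (hq1 : ∀ i, 1 < q i)
    (x : ∀ i, α i) (𝓛 : Finset ι → Prop) (V : (∀ i, α i) → ℝ) (hV : Lev 𝓛 V) (a s : Finset ι)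
    (h : ¬ 𝓛 (a ∪ s)) : Φ (tri a s (pr q x) (Bm q x) (av q)) V = 0 := by
  rw [(tri_proj q hq hq1 x a s).Φ_eq]
  apply Finset.sum_eq_zero
  intro ω _
  rw [hV (a ∪ s) h]
  · simp
  · intro i hi c
    unfold tri mix
    by_cases his : i ∈ s
    · simp only [his, if_true]
      exact Bm_row q hq hq1 x i c
    · have hia : i ∈ a := by
        rcases Finset.mem_union.1 hi with h1 | h1
        · exact h1
        · exact absurd h1 his
      simp only [his, hia, if_true, if_false]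
      exact pr_row q hq x i c

/-- **One shift.** Upper bound for the mass off the point `x` in terms of the components. -/
theorem one_shift_upper (q : ι → ℝ) (hq : ∀ i, (Fintype.card (α i) : ℝ) = q i)
    (hq1 : ∀ i, 1 < q i) (x : ∀ i, α i) (𝓛 : Finset ι → Prop) [DecidablePred 𝓛]
    (Wt : Finset ι → Finset ι → ℝ) (hWt : ∀ s, ∀ a ⊆ sᶜ, 𝓛 (a ∪ s) → 0 < Wt a s) (Γ : ℝ)
    (hΓ : ∀ s, (∑ a ∈ sᶜ.powerset with 𝓛 (a ∪ s), (∏ i ∈ a, 1 / (q i - 1)) / Wt a s) ≤
      Γ * ∏ i ∈ s, (1 - 1 / q i))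
    (V : (∀ i, α i) → ℝ) (hV : Lev 𝓛 V) :
    ∑ ω with (∀ i, ω i ≠ x i), V ω ^ 2 ≤ (∏ i, (1 - 1 / q i)) * (Γ *
      ∑ s ∈ (univ : Finset ι).powerset, ∑ a ∈ sᶜ.powerset,
        Wt a s * Φ (tri a s (pr q x) (Bm q x) (av q)) V) := by
  have hB := Bm_proj q hq hq1 x
  have hpos : ∀ s : Finset ι, 0 ≤ ∏ i ∈ s, (1 - 1 / q i) := by
    intro s
    apply Finset.prod_nonneg
    intro i _
    have h0 : 0 < q i := by linarith [hq1 i]
    have : 1 / q i ≤ 1 := by
      rw [div_le_one h0]; exact (hq1 i).le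
    linarith
  -- sum over `s`
  have h1 : ∑ ω with (∀ i, ω i ≠ x i), V ω ^ 2 =
      ∑ s ∈ (univ : Finset ι).powerset, Φ (mix s (Bm q x) (Nn q x)) V := by
    rw [← Φ_al]
    unfold Φ
    symm
    rw [Finset.sum_comm]
    refine Finset.sum_congr rfl fun η _ => ?_
    rw [Finset.sum_comm]
    refine Finset.sum_congr rfl fun θ _ => ?_
    rw [← Finset.mul_sum, sum_mix]
    congr 1
    refine Finset.prod_congr rfl fun i _ => ?_
    unfold Bm
    ring
  rw [h1, Finset.mul_sum, Finset.mul_sum]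
  refine Finset.sum_le_sum fun s _ => ?_
  rw [Φ_mix_N q hq hq1 x V s]
  set A := sᶜ.powerset.filter (fun a => 𝓛 (a ∪ s)) with hA
  set w : Finset ι → ℝ := fun a => ∏ i ∈ a, 1 / (q i - 1) with hw
  have hw0 : ∀ a, 0 < w a := fun a => Finset.prod_pos fun i _ => by
    have := hq1 i
    have : 0 < q i - 1 := by linarith
    positivity
  set F : Finset ι → (∀ i, α i) → ℝ := fun a ω => T (tri a s (Zm q x) (Bm q x) (av q)) V ω with hF
  have hsub : ∀ a ∈ A, a ⊆ sᶜ := fun a ha => Finset.mem_powerset.1 (Finset.mem_filter.1 ha).1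
  have hAL : ∀ a ∈ A, 𝓛 (a ∪ s) := fun a ha => (Finset.mem_filter.1 ha).2
  -- expansion
  have hexp : ∀ ω, T (mix s (Bm q x) (Nr q x)) V ω = ∑ a ∈ A, (-1 : ℝ) ^ a.card * F a ω := by
    intro ω
    have e1 : T (mix s (Bm q x) (Nr q x)) V ω = ∑ a ∈ sᶜ.powerset, (-1 : ℝ) ^ a.card * F a ω := by
      simp only [hF]
      unfold T
      have : ∀ η : (∀ i, α i), ∏ i, mix s (Bm q x) (Nr q x) i (ω i) (η i) =
          ∑ a ∈ sᶜ.powerset, (-1 : ℝ) ^ a.card *
            ∏ i, tri a s (Zm q x) (Bm q x) (av q) i (ω i) (η i) := by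
        intro η
        rw [sum_tri_inner_neg]
        rfl
      simp_rw [this, Finset.sum_mul, Finset.mul_sum]
      rw [Finset.sum_comm]
      refine Finset.sum_congr rfl fun a _ => Finset.sum_congr rfl fun η _ => by ring
    rw [e1]
    symm
    apply Finset.sum_subset (Finset.filter_subset _ _)
    intro a ha1 ha2
    have hnL : ¬ 𝓛 (a ∪ s) := fun hL => ha2 (Finset.mem_filter.2 ⟨ha1, hL⟩)
    have : F a ω = 0 := by
      apply hV (a ∪ s) hnL
      intro i hi c
      unfold tri mix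
      by_cases his : i ∈ s
      · simp only [his, if_true]
        exact Bm_row q hq hq1 x i c
      · have hia : i ∈ a := by
          rcases Finset.mem_union.1 hi with h1 | h1
          · exact h1
          · exact absurd h1 his
        simp only [his, hia, if_true, if_false]
        unfold Zm
        exact sum_mul_ind i q hq _ _
    rw [this, mul_zero]
  -- Cauchy–Schwarz
  have hCS : ∑ ω, (T (mix s (Bm q x) (Nr q x)) V ω) ^ 2 ≤
      (∑ a ∈ A, w a / Wt a s) * ∑ a ∈ A, Wt a s * Φ (tri a s (pr q x) (Bm q x) (av q)) V := by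
    have h2 : ∀ ω, (T (mix s (Bm q x) (Nr q x)) V ω) ^ 2 ≤ (∑ a ∈ A, w a / Wt a s) *
        ∑ a ∈ A, (Wt a s / w a) * F a ω ^ 2 := by
      intro ω
      rw [hexp ω]
      refine Finset.sum_sq_le_sum_mul_sum_of_sq_le_mul A ?_ ?_ ?_
      · intro a ha
        have := hWt s a (hsub a ha) (hAL a ha)
        have := hw0 a
        positivity
      · intro a ha
        have := hWt s a (hsub a ha) (hAL a ha)
        have := hw0 a
        positivity
      · intro a ha
        have h2 := hWt s a (hsub a ha) (hAL a ha)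
        have h3 := hw0 a
        have h4 : ((-1 : ℝ) ^ a.card) ^ 2 = 1 := by
          rw [← pow_mul, mul_comm, pow_mul]; simp
        rw [mul_pow, h4]
        apply le_of_eq
        field_simp
    refine (Finset.sum_le_sum fun ω _ => h2 ω).trans (le_of_eq ?_)
    rw [← Finset.mul_sum, Finset.sum_comm]
    congr 1
    refine Finset.sum_congr rfl fun a ha => ?_
    rw [← Finset.mul_sum, T_tri_sq q hq hq1 x V a s (hsub a ha)]
    have h3 := (hw0 a).ne'
    show Wt a s / w a * (w a * _) = _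
    field_simp
  have hY0 : ∀ a, 0 ≤ Φ (tri a s (pr q x) (Bm q x) (av q)) V :=
    fun a => (tri_proj q hq hq1 x a s).Φ_nonneg V
  have hsum0 : 0 ≤ ∑ a ∈ A, Wt a s * Φ (tri a s (pr q x) (Bm q x) (av q)) V :=
    Finset.sum_nonneg fun a ha => mul_nonneg (hWt s a (hsub a ha) (hAL a ha)).le (hY0 a)
  have hsumeq : ∑ a ∈ A, Wt a s * Φ (tri a s (pr q x) (Bm q x) (av q)) V =
      ∑ a ∈ sᶜ.powerset, Wt a s * Φ (tri a s (pr q x) (Bm q x) (av q)) V := by
    apply Finset.sum_subset (Finset.filter_subset _ _)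
    intro a ha1 ha2
    have hnL : ¬ 𝓛 (a ∪ s) := fun hL => ha2 (Finset.mem_filter.2 ⟨ha1, hL⟩)
    rw [Φ_tri_zero q hq hq1 x 𝓛 V hV a s hnL, mul_zero]
  rw [← hsumeq]
  have h5 : ∏ i, (1 - 1 / q i) = (∏ i ∈ sᶜ, (1 - 1 / q i)) * ∏ i ∈ s, (1 - 1 / q i) := by
    rw [mul_comm, Finset.prod_mul_prod_compl]
  rw [h5, mul_assoc]
  refine mul_le_mul_of_nonneg_left ?_ (hpos _)
  refine hCS.trans ?_
  calc (∑ a ∈ A, w a / Wt a s) * ∑ a ∈ A, Wt a s * Φ (tri a s (pr q x) (Bm q x) (av q)) V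
      ≤ (Γ * ∏ i ∈ s, (1 - 1 / q i)) *
        ∑ a ∈ A, Wt a s * Φ (tri a s (pr q x) (Bm q x) (av q)) V :=
        mul_le_mul_of_nonneg_right (hΓ s) hsum0
    _ = _ := by ring

theorem Φ_at1_add (i : ι) (A B C : ∀ i, α i → α i → ℝ) (h : ∀ a b, A i a b + B i a b = C i a b)
    (V : (∀ j, α j) → ℝ) : Φ (at1 i A) V + Φ (at1 i B) V = Φ (at1 i C) V := by
  rw [Φ_at1, Φ_at1, Φ_at1, ← Finset.sum_add_distrib]
  refine Finset.sum_congr rfl fun r _ => ?_
  rw [← Finset.sum_add_distrib]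
  refine Finset.sum_congr rfl fun a _ => ?_
  rw [← Finset.sum_add_distrib]
  refine Finset.sum_congr rfl fun b _ => ?_
  rw [← h]
  ring

/-- the total cost -/
theorem cost_one (q : ι → ℝ) (hq : ∀ i, (Fintype.card (α i) : ℝ) = q i) (hq1 : ∀ i, 1 < q i)
    (ell : ι → ℝ) (𝓛 : Finset ι → Prop) [DecidablePred 𝓛] (Lg : ℝ)
    (hLg : ∀ s, 𝓛 s → ∑ i ∈ s, ell i ≤ Lg) (V : (∀ i, α i) → ℝ) (hV : Lev 𝓛 V) :
    ∑ i, ell i * Φ (at1 i (fun i a b => one i a b - av q i a b)) V ≤ Lg * ∑ ω, V ω ^ 2 := by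
  have hq0 : ∀ i, 0 < q i := fun i => by linarith [hq1 i]
  have hav : IsProj (av q : ∀ i, α i → α i → ℝ) := av_proj q hq hq0
  set cav : ∀ i, α i → α i → ℝ := fun i a b => one i a b - av q i a b with hcav
  have hcavP : IsProj cav := hav.compl
  have hsum1 : ∀ i a b, cav i a b + av q i a b = one i a b := by
    intro i a b; simp [hcav]
  rw [← sum_ell_Φ_mix cav (av q) hsum1 ell V, ← sum_Φ_mix cav (av q) hsum1 V, Finset.mul_sum]
  refine Finset.sum_le_sum fun s _ => ?_
  by_cases hs : 𝓛 s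
  · exact mul_le_mul_of_nonneg_right (hLg s hs) ((hcavP.mix hav s).Φ_nonneg V)
  · have : Φ (mix s cav (av q)) V = 0 := by
      rw [(hcavP.mix hav s).Φ_eq]
      apply Finset.sum_eq_zero
      intro ω _
      rw [hV s hs]
      · simp
      · intro i hi a
        unfold mix
        simp only [hi, if_true, hcav, one, av]
        rw [Finset.sum_sub_distrib, Finset.sum_const, Finset.card_univ, nsmul_eq_mul, hq]
        have := (hq0 i).ne'
        simp
        field_simp
        ring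
    rw [this]
    simp

/-- **Several shifts.** -/
theorem abs_upper {κ : Type} [Fintype κ] [DecidableEq κ] (q : ι → ℝ)
    (hq : ∀ i, (Fintype.card (α i) : ℝ) = q i) (hq1 : ∀ i, 1 < q i) (ρ : ℝ) (hρ1 : 1 ≤ ρ)
    (hρ : ∀ i, q i / (q i - 1) ≤ ρ) (x : κ → ∀ i, α i)
    (hx : ∀ i, Function.Injective (fun k => x k i)) (ell : ι → ℝ) (hell : ∀ i, 0 ≤ ell i)
    (Lg : ℝ) (hLg : 0 < Lg) (ε : ℝ) (hε : 0 < ε) (Γ : ℝ) (hΓ0 : 0 ≤ Γ)
    (hΓ : ∀ s : Finset ι, (∑ a ∈ sᶜ.powerset with ∑ i ∈ a ∪ s, ell i ≤ Lg,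
      (∏ i ∈ a, 1 / (q i - 1)) / (1 + ε - (∑ i ∈ s, ell i) / Lg +
        (Fintype.card κ - 1) * ((∑ i ∈ a, ell i) / Lg))) ≤ Γ * ∏ i ∈ s, (1 - 1 / q i))
    (V : (∀ i, α i) → ℝ) (hV : Lev (fun s : Finset ι => ∑ i ∈ s, ell i ≤ Lg) V) :
    ∑ k, ∑ ω with (∀ i, ω i ≠ x k i), V ω ^ 2 ≤ (∏ i, (1 - 1 / q i)) * (Γ *
      (Fintype.card κ * (ε + ρ) * ∑ ω, V ω ^ 2)) := by
  classical
  have hq0 : ∀ i, 0 < q i := fun i => by linarith [hq1 i]
  set K : ℝ := (Fintype.card κ : ℝ) with hK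
  have hK0 : 0 ≤ K := Nat.cast_nonneg _
  have hpos : 0 ≤ ∏ i, (1 - 1 / q i) := by
    apply Finset.prod_nonneg
    intro i _
    have : 1 / q i ≤ 1 := by
      rw [div_le_one (hq0 i)]; exact (hq1 i).le
    linarith
  set Wt : Finset ι → Finset ι → ℝ := fun a s => 1 + ε - (∑ i ∈ s, ell i) / Lg +
        (K - 1) * ((∑ i ∈ a, ell i) / Lg) with hWt
  have hWt0 : ∀ s, ∀ a ⊆ sᶜ, ∑ i ∈ a ∪ s, ell i ≤ Lg → 0 < Wt a s := by
    intro s a has h
    rw [Finset.sum_union (Finset.disjoint_left.2 fun i hi => Finset.mem_compl.1 (has hi))] at h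
    have h1 : (∑ i ∈ a, ell i) / Lg + (∑ i ∈ s, ell i) / Lg ≤ 1 := by
      rw [← add_div, div_le_one hLg]; exact h
    have h2 : 0 ≤ (∑ i ∈ a, ell i) / Lg :=
      div_nonneg (Finset.sum_nonneg fun i _ => hell i) hLg.le
    have h3 : 0 ≤ K * ((∑ i ∈ a, ell i) / Lg) := mul_nonneg hK0 h2
    simp only [hWt]
    nlinarith
  have h1 := fun k => one_shift_upper q hq hq1 (x k) (fun s : Finset ι => ∑ i ∈ s, ell i ≤ Lg)
    Wt hWt0 Γ hΓ V hV
  refine (Finset.sum_le_sum fun k (_ : k ∈ (univ : Finset κ)) => h1 k).trans ?_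
  rw [← Finset.mul_sum, ← Finset.mul_sum]
  refine mul_le_mul_of_nonneg_left (mul_le_mul_of_nonneg_left ?_ hΓ0) hpos
  set N2 : ℝ := ∑ ω, V ω ^ 2 with hN2
  set cav : ∀ i, α i → α i → ℝ := fun i a b => one i a b - av q i a b with hcav
  set C : ℝ := ∑ i, ell i * Φ (at1 i cav) V with hC
  have hCle : C ≤ Lg * N2 := cost_one q hq hq1 ell (fun s : Finset ι => ∑ i ∈ s, ell i ≤ Lg) Lg
    (fun s hs => hs) V hV
  have h2 : ∀ k, ∑ s ∈ (univ : Finset ι).powerset, ∑ a ∈ sᶜ.powerset,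
        Wt a s * Φ (tri a s (pr q (x k)) (Bm q (x k)) (av q)) V =
      (1 + ε) * N2 - C / Lg + K / Lg * ∑ i, ell i * Φ (at1 i (pr q (x k))) V := by
    intro k
    have hX := Bm_eq q hq1 (x k)
    have e1 := sum_Φ_tri (pr q (x k)) (Bm q (x k)) (av q) hX V
    have e2 := sum_ell_Φ_tri_a (pr q (x k)) (Bm q (x k)) (av q) hX V ell
    have e3 := sum_ell_Φ_tri_s (pr q (x k)) (Bm q (x k)) (av q) hX V ell
    have e4 : ∑ i, ell i * Φ (at1 i (pr q (x k))) V + ∑ i, ell i * Φ (at1 i (Bm q (x k))) V = C := by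
      rw [hC, ← Finset.sum_add_distrib]
      refine Finset.sum_congr rfl fun i _ => ?_
      rw [← mul_add, Φ_at1_add i (pr q (x k)) (Bm q (x k)) cav]
      intro a b
      have := hX i a b
      simp only [hcav]
      linarith
    have e5 : ∀ a s : Finset ι, Wt a s * Φ (tri a s (pr q (x k)) (Bm q (x k)) (av q)) V =
        (1 + ε) * Φ (tri a s (pr q (x k)) (Bm q (x k)) (av q)) V -
        1 / Lg * ((∑ i ∈ s, ell i) * Φ (tri a s (pr q (x k)) (Bm q (x k)) (av q)) V) +
        (K - 1) / Lg * ((∑ i ∈ a, ell i) * Φ (tri a s (pr q (x k)) (Bm q (x k)) (av q)) V) := by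
      intro a s
      simp only [hWt]
      ring
    simp_rw [← Finset.mul_sum] at e3
    simp_rw [e5, Finset.sum_add_distrib, Finset.sum_sub_distrib, ← Finset.mul_sum]
    rw [e1, e2, e3]
    rw [← e4]
    ring
  simp_rw [h2]
  rw [Finset.sum_add_distrib, Finset.sum_const, Finset.card_univ, nsmul_eq_mul, ← Finset.mul_sum,
    ← hK]
  have h3 : ∑ k, ∑ i, ell i * Φ (at1 i (pr q (x k))) V ≤ ρ * C := by
    rw [Finset.sum_comm, hC, Finset.mul_sum]
    refine Finset.sum_le_sum fun i _ => ?_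
    rw [← Finset.mul_sum]
    have := mul_le_mul_of_nonneg_left (sum_pr_le q hq hq1 ρ hρ x i (hx i) V) (hell i)
    refine this.trans (le_of_eq ?_)
    ring
  have h4 : K / Lg * ∑ k, ∑ i, ell i * Φ (at1 i (pr q (x k))) V ≤ K / Lg * (ρ * C) :=
    mul_le_mul_of_nonneg_left h3 (div_nonneg hK0 hLg.le)
  refine (add_le_add le_rfl h4).trans ?_
  have h5 : K * ((1 + ε) * N2 - C / Lg) + K / Lg * (ρ * C) =
      K * (1 + ε) * N2 + (K * (ρ - 1)) * (C / Lg) := by ring
  rw [h5]
  have h6 : C / Lg ≤ N2 := by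
    rw [div_le_iff₀ hLg]; linarith
  have h7 : (K * (ρ - 1)) * (C / Lg) ≤ (K * (ρ - 1)) * N2 :=
    mul_le_mul_of_nonneg_left h6 (mul_nonneg hK0 (by linarith))
  linarith

end Pool.Agent.K4H10.MT
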