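import Pool.Agent.K4H10.BR.Abs3

set_option autoImplicit false
set_option linter.unusedSectionVars false

/-! # From the product space to the integers -/

namespace Pool.Agent.K4H10.MT

open Finset Pool.Agent.K4H10.BR

open scoped Classical

/-- The real linear combinations of the indicator functions of residue classes `a` mod `d` with
`1 ≤ d ≤ R`. -/
noncomputable def Level (R : ℝ) : Submodule ℝ (ℤ → ℝ) :=
  Submodule.span ℝ {f | ∃ (d : ℕ) (a : ℤ), 0 < d ∧ (d : ℝ) ≤ R ∧
    f = fun n => if (d : ℤ) ∣ n - a then 1 else 0}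

theorem level_periodic (R : ℝ) (N : ℕ) (hNd : ∀ d : ℕ, 0 < d → (d : ℝ) ≤ R → d ∣ N) (V : ℤ → ℝ)
    (hV : V ∈ Level R) (n : ℤ) : V (n + N) = V n := by
  unfold Level at hV
  induction hV using Submodule.span_induction with
  | mem f hf =>
    obtain ⟨d, a, hd, hdR, rfl⟩ := hf
    have h1 : (d : ℤ) ∣ (N : ℤ) := Int.natCast_dvd_natCast.2 (hNd d hd hdR)
    have h2 : (d : ℤ) ∣ n + N - a ↔ (d : ℤ) ∣ n - a := by
      have : n + N - a = N + (n - a) := by ring
      rw [this]
      exact dvd_add_right h1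
    show (if (d : ℤ) ∣ n + N - a then (1:ℝ) else 0) = if (d : ℤ) ∣ n - a then 1 else 0
    by_cases h3 : (d : ℤ) ∣ n - a
    · rw [if_pos h3, if_pos (h2.2 h3)]
    · rw [if_neg h3, if_neg (fun h => h3 (h2.1 h))]
  | zero => rfl
  | add f g _ _ hf hg => simp only [Pi.add_apply, hf, hg]
  | smul c f _ hf => simp only [Pi.smul_apply, hf]

theorem sum_shift (N : ℕ) (F : ℤ → ℝ) (hF : ∀ n : ℤ, F (n + N) = F n) (c : ℤ) :
    ∑ n ∈ range N, F (n + c) = ∑ n ∈ range N, F n := by
  rcases Nat.eq_zero_or_pos N with rfl | hN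
  · simp
  have : NeZero N := ⟨hN.ne'⟩
  have hmul : ∀ (m n : ℤ), F (n + m * N) = F n := by
    intro m
    induction m using Int.induction_on with
    | zero => intro n; simp
    | succ i ih =>
      intro n
      have : n + ((i : ℤ) + 1) * N = (n + i * N) + N := by ring
      rw [this, hF, ih]
    | pred i ih =>
      intro n
      have h1 := hF (n + (-(i : ℤ) - 1) * N)
      have : n + (-(i : ℤ) - 1) * N + N = n + -(i : ℤ) * N := by ring
      rw [this, ih] at h1
      exact h1.symm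
  have hmod : ∀ n m : ℤ, (n : ZMod N) = m → F n = F m := by
    intro n m h
    rw [ZMod.intCast_eq_intCast_iff_dvd_sub] at h
    obtain ⟨t, ht⟩ := h
    have : m = n + t * N := by linarith
    rw [this, hmul]
  have h1 : ∀ c : ℤ, ∑ n ∈ range N, F (n + c) =
      ∑ z : ZMod N, F (((z + (c : ZMod N)).val : ℕ) : ℤ) := by
    intro c
    refine Finset.sum_nbij' (fun n => (n : ZMod N)) (fun z => z.val) ?_ ?_ ?_ ?_ ?_
    · intro n _
      exact Finset.mem_univ _
    · intro z _
      exact Finset.mem_range.2 (ZMod.val_lt z)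
    · intro n hn
      exact ZMod.val_natCast_of_lt (Finset.mem_range.1 hn)
    · intro z _
      exact ZMod.natCast_zmod_val z
    · intro n _
      apply hmod
      rw [Int.cast_natCast, ZMod.natCast_zmod_val]
      push_cast
      rfl
  rw [h1 c]
  have h2 := h1 0
  simp only [add_zero, Int.cast_zero] at h2
  rw [h2]
  exact Equiv.sum_comp (Equiv.addRight (c : ZMod N)) (fun z : ZMod N => F ((z.val : ℕ) : ℤ))

variable (S : Finset ℕ)

theorem exists_E (N : ℕ) (hN : 0 < N) (p : ℕ) (hp : p.Prime) : ∃ E : ℤ, (p : ℤ) ∣ E - 1 ∧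
    ∀ d : ℕ, d ∣ N → ¬ p ∣ d → (d : ℤ) ∣ E := by
  have h1 : Nat.Coprime p (N / p ^ N.factorization p) := Nat.coprime_ordCompl hp hN.ne'
  set M := N / p ^ N.factorization p with hM
  have h2 : IsCoprime (p : ℤ) (M : ℤ) := h1.isCoprime
  obtain ⟨x, y, hxy⟩ := h2
  refine ⟨y * M, ⟨-x, by linarith⟩, fun d hd hpd => ?_⟩
  have h3 : p ^ N.factorization p * M = N := Nat.ordProj_mul_ordCompl_eq_self N p
  have h4 : Nat.Coprime d (p ^ N.factorization p) :=
    Nat.Coprime.pow_right _ ((hp.coprime_iff_not_dvd.2 hpd).symm)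
  have h5 : d ∣ M := by
    rw [← h3] at hd
    exact h4.dvd_of_dvd_mul_left hd
  exact Dvd.dvd.mul_left (Int.natCast_dvd_natCast.2 h5) _

/-- **Averaging.** -/
theorem crt_avg (hS : ∀ p ∈ S, p.Prime) [∀ i : S, NeZero (i : ℕ)] (R : ℝ)
    (N : ℕ) (hN : 0 < N) (hNd : ∀ d : ℕ, 0 < d → (d : ℝ) ≤ R → d ∣ N)
    (hSR : ∀ p ∈ S, ((p : ℕ) : ℝ) ≤ R) (k : ℕ) (a b : Fin k → ℤ)
    (ha : ∀ p ∈ S, ∀ i, ¬ ((p : ℕ) : ℤ) ∣ a i)
    (hab : ∀ p ∈ S, ∀ i j, ((p : ℕ) : ℤ) ∣ a i * b j - a j * b i → i = j) (Cst : ℝ)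
    (hC : ∀ x : Fin k → ∀ i : S, ZMod (i : ℕ), (∀ i, Function.Injective (fun m => x m i)) →
      ∀ V' : (∀ i : S, ZMod (i : ℕ)) → ℝ,
      Lev (fun s : Finset S => ∑ i ∈ s, Real.log ((i : ℕ) : ℝ) ≤ Real.log R) V' →
      ∑ m, ∑ ω with (∀ i, ω i ≠ x m i), V' ω ^ 2 ≤ Cst * ∑ ω, V' ω ^ 2)
    (V : ℤ → ℝ) (hV : V ∈ Level R) :
    ∑ n ∈ range N, V n ^ 2 *
      (((univ : Finset (Fin k)).filter
        (fun m => ∀ p ∈ S, ¬ ((p : ℕ) : ℤ) ∣ a m * n + b m)).card : ℝ) ≤
      Cst * ∑ n ∈ range N, V n ^ 2 := by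
  have hSN : ∀ p ∈ S, p ∣ N := fun p hp => hNd p (hS p hp).pos (hSR p hp)
  have hE : ∀ i : S, ∃ E : ℤ, ((i : ℕ) : ℤ) ∣ E - 1 ∧
    ∀ d : ℕ, d ∣ N → ¬ (i : ℕ) ∣ d → (d : ℤ) ∣ E := fun i => exists_E N hN i (hS i i.2)
  choose E hE1 hE2 using hE
  set u : (∀ i : S, ZMod (i : ℕ)) → ℤ := fun g => ∑ i, E i * ((g i).val : ℤ) with hu
  -- residues of `u g`
  have hures : ∀ (g : ∀ i : S, ZMod (i : ℕ)) (i : S), ((u g : ℤ) : ZMod (i : ℕ)) = g i := by
    intro g i
    simp only [hu]
    push_cast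
    rw [Finset.sum_eq_single i]
    · have h1 : (E i : ZMod (i : ℕ)) = 1 := by
        have := (ZMod.intCast_zmod_eq_zero_iff_dvd (E i - 1) (i : ℕ)).2 (hE1 i)
        push_cast at this
        linear_combination this
      rw [h1, one_mul]
      exact ZMod.natCast_zmod_val _
    · intro j _ hji
      have h1 : (E j : ZMod (i : ℕ)) = 0 := by
        rw [ZMod.intCast_zmod_eq_zero_iff_dvd]
        apply hE2 j i (hSN i i.2)
        intro h2
        apply hji
        exact Subtype.ext ((Nat.prime_dvd_prime_iff_eq (hS j j.2) (hS i i.2)).1 h2)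
      rw [h1, zero_mul]
    · intro h1
      exact absurd (Finset.mem_univ _) h1
  -- the translates are of the right level
  have hLev : ∀ n : ℤ, Lev (fun s : Finset S => ∑ i ∈ s, Real.log ((i : ℕ) : ℝ) ≤ Real.log R)
      (fun g => V (n + u g)) := by
    intro n
    have hV' := hV
    unfold Level at hV'
    induction hV' using Submodule.span_induction with
    | mem f hf =>
      obtain ⟨d, c, hd, hdR, rfl⟩ := hf
      intro s hs M hM ω
      have hex : ∃ i ∈ s, ¬ (i : ℕ) ∣ d := by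
        by_contra hcon
        push Not at hcon
        apply hs
        have h1 : ∏ p ∈ s.map (Function.Embedding.subtype _), p ∣ d := by
          apply Finset.prod_primes_dvd
          · intro p hp
            rw [Finset.mem_map] at hp
            obtain ⟨i, _, rfl⟩ := hp
            exact (hS i i.2).prime
          · intro p hp
            rw [Finset.mem_map] at hp
            obtain ⟨i, hi, rfl⟩ := hp
            exact hcon i hi
        rw [Finset.prod_map] at h1
        have h2 := Nat.le_of_dvd hd h1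
        have h3 : ∑ i ∈ s, Real.log ((i : ℕ) : ℝ) = Real.log ((∏ i ∈ s, (i : ℕ) : ℕ) : ℝ) := by
          push_cast
          rw [Real.log_prod]
          intro i _
          have := (hS i i.2).pos
          positivity
        show ∑ i ∈ s, Real.log ((i : ℕ) : ℝ) ≤ Real.log R
        rw [h3]
        apply Real.log_le_log
        · have : 0 < ∏ i ∈ s, (i : ℕ) := Finset.prod_pos fun i _ => (hS i i.2).pos
          exact_mod_cast this
        · refine le_trans ?_ hdR
          exact_mod_cast h2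
      obtain ⟨i, hi, hid⟩ := hex
      apply T_zero M i (hM i hi)
      intro η η' hη
      have h1 : u η - u η' = E i * (((η i).val : ℤ) - ((η' i).val : ℤ)) := by
        simp only [hu]
        rw [← Finset.sum_sub_distrib, Finset.sum_eq_single i]
        · ring
        · intro j _ hji
          rw [hη j hji]
          ring
        · intro h1
          exact absurd (Finset.mem_univ _) h1
      have h2 : (d : ℤ) ∣ u η - u η' := by
        rw [h1]
        exact Dvd.dvd.mul_right (hE2 i d (hNd d hd hdR) hid) _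
      have h5 : (d : ℤ) ∣ n + u η - c ↔ (d : ℤ) ∣ n + u η' - c := by
        have : n + u η - c = (u η - u η') + (n + u η' - c) := by ring
        rw [this]
        exact (dvd_add_right h2)
      show (if (d : ℤ) ∣ n + u η - c then (1:ℝ) else 0) = if (d : ℤ) ∣ n + u η' - c then 1 else 0
      by_cases h6 : (d : ℤ) ∣ n + u η - c
      · rw [if_pos h6, if_pos (h5.1 h6)]
      · rw [if_neg h6, if_neg (fun h => h6 (h5.2 h))]
    | zero =>
      intro s _ M _ ω
      unfold T
      simp
    | add f g _ _ hf hg =>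
      intro s hs M hM ω
      unfold T
      have h1 : ∀ η : (∀ i : S, ZMod (i : ℕ)), (∏ i, M i (ω i) (η i)) * (f + g) (n + u η) =
          (∏ i, M i (ω i) (η i)) * f (n + u η) + (∏ i, M i (ω i) (η i)) * g (n + u η) := by
        intro η
        rw [Pi.add_apply]; ring
      simp_rw [h1]
      rw [Finset.sum_add_distrib]
      have e1 := hf (by assumption) s hs M hM ω
      have e2 := hg (by assumption) s hs M hM ω
      unfold T at e1 e2
      rw [e1, e2, add_zero]
    | smul c f _ hf =>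
      intro s hs M hM ω
      unfold T
      have h1 : ∀ η : (∀ i : S, ZMod (i : ℕ)), (∏ i, M i (ω i) (η i)) * (c • f) (n + u η) =
          c * ((∏ i, M i (ω i) (η i)) * f (n + u η)) := by
        intro η
        rw [Pi.smul_apply, smul_eq_mul]; ring
      simp_rw [h1]
      rw [← Finset.mul_sum]
      have e1 := hf (by assumption) s hs M hM ω
      unfold T at e1
      rw [e1, mul_zero]
  -- periodicity
  set A : ℤ → ℝ := fun n =>
    (((univ : Finset (Fin k)).filter
      (fun m => ∀ p ∈ S, ¬ ((p : ℕ) : ℤ) ∣ a m * n + b m)).card : ℝ)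
    with hA
  have hVper : ∀ n : ℤ, V (n + N) = V n := level_periodic R N hNd V hV
  have hAper : ∀ n : ℤ, A (n + N) = A n := by
    intro n
    simp only [hA]
    congr 2
    ext m
    simp only [mem_filter, mem_univ, true_and]
    refine forall₂_congr fun p hp => ?_
    have h1 : (p : ℤ) ∣ (N : ℤ) := Int.natCast_dvd_natCast.2 (hSN p hp)
    have : a m * (n + N) + b m = N * a m + (a m * n + b m) := by ring
    rw [this, dvd_add_right (Dvd.dvd.mul_right h1 _)]
  have hcard : (0 : ℝ) < (Fintype.card (∀ i : S, ZMod (i : ℕ)) : ℝ) := by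
    have : 0 < Fintype.card (∀ i : S, ZMod (i : ℕ)) := Fintype.card_pos
    exact_mod_cast this
  set G : ℝ := (Fintype.card (∀ i : S, ZMod (i : ℕ)) : ℝ) with hG
  have h1 : G * ∑ n ∈ range N, V n ^ 2 * A n =
      ∑ n ∈ range N, ∑ g : (∀ i : S, ZMod (i : ℕ)), V (n + u g) ^ 2 * A (n + u g) := by
    rw [Finset.sum_comm, hG, ← nsmul_eq_mul, ← Finset.card_univ, ← Finset.sum_const]
    refine Finset.sum_congr rfl fun g _ => ?_
    exact (sum_shift N (fun n => V n ^ 2 * A n) (fun n => by rw [hVper, hAper]) (u g)).symm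
  have h2 : G * ∑ n ∈ range N, V n ^ 2 =
      ∑ n ∈ range N, ∑ g : (∀ i : S, ZMod (i : ℕ)), V (n + u g) ^ 2 := by
    rw [Finset.sum_comm, hG, ← nsmul_eq_mul, ← Finset.card_univ, ← Finset.sum_const]
    refine Finset.sum_congr rfl fun g _ => ?_
    exact (sum_shift N (fun n => V n ^ 2) (fun n => by rw [hVper]) (u g)).symm
  have h3 : ∀ n : ℤ, ∑ g : (∀ i : S, ZMod (i : ℕ)), V (n + u g) ^ 2 * A (n + u g) ≤
      Cst * ∑ g : (∀ i : S, ZMod (i : ℕ)), V (n + u g) ^ 2 := by
    intro n
    have hFact : ∀ i : S, Fact (i : ℕ).Prime := fun i => ⟨hS i i.2⟩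
    have ha' : ∀ (i : S) (m : Fin k), ((a m : ℤ) : ZMod (i : ℕ)) ≠ 0 := by
      intro i m h0
      rw [ZMod.intCast_zmod_eq_zero_iff_dvd] at h0
      exact ha i i.2 m h0
    set x : Fin k → ∀ i : S, ZMod (i : ℕ) := fun m i =>
      -((b m : ℤ) : ZMod (i : ℕ)) * ((a m : ℤ) : ZMod (i : ℕ))⁻¹ - ((n : ℤ) : ZMod (i : ℕ)) with hx
    have e1 := hC x (fun i => by
      intro m m' hm
      simp only [hx] at hm
      apply hab i i.2 m m'
      rw [← ZMod.intCast_zmod_eq_zero_iff_dvd]
      push_cast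
      have h1 := ha' i m
      have h2 := ha' i m'
      have h3 : -((b m : ℤ) : ZMod (i : ℕ)) * ((a m : ℤ) : ZMod (i : ℕ))⁻¹ =
          -((b m' : ℤ) : ZMod (i : ℕ)) * ((a m' : ℤ) : ZMod (i : ℕ))⁻¹ := by
        linear_combination hm
      field_simp at h3
      linear_combination h3) (fun g => V (n + u g)) (hLev n)
    refine le_trans (le_of_eq ?_) e1
    have e2 : ∀ m, ∑ ω : (∀ i : S, ZMod (i : ℕ)) with (∀ i, ω i ≠ x m i), V (n + u ω) ^ 2 =
        ∑ g : (∀ i : S, ZMod (i : ℕ)), V (n + u g) ^ 2 *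
          (if ∀ p ∈ S, ¬ ((p : ℕ) : ℤ) ∣ a m * (n + u g) + b m then 1 else 0) := by
      intro m
      rw [Finset.sum_filter]
      refine Finset.sum_congr rfl fun g _ => ?_
      have h4 : (∀ i, g i ≠ x m i) ↔ ∀ p ∈ S, ¬ ((p : ℕ) : ℤ) ∣ a m * (n + u g) + b m := by
        have h2 : ∀ i : S, g i = x m i ↔ ((i : ℕ) : ℤ) ∣ a m * (n + u g) + b m := by
          intro i
          rw [← ZMod.intCast_zmod_eq_zero_iff_dvd]
          push_cast
          rw [hures g i]
          simp only [hx]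
          have h1 := ha' i m
          constructor
          · intro h3
            rw [h3]
            field_simp
            ring
          · intro h3
            have h5 : g i = (((a m : ℤ) : ZMod (i : ℕ)) * (((n : ℤ) : ZMod (i : ℕ)) + g i) +
                ((b m : ℤ) : ZMod (i : ℕ))) * ((a m : ℤ) : ZMod (i : ℕ))⁻¹ +
                (-((b m : ℤ) : ZMod (i : ℕ)) * ((a m : ℤ) : ZMod (i : ℕ))⁻¹ -
                ((n : ℤ) : ZMod (i : ℕ))) := by
              field_simp
              ring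
            rw [h5, h3]
            ring
        constructor
        · intro h4 p hp h5
          exact h4 ⟨p, hp⟩ ((h2 ⟨p, hp⟩).2 h5)
        · intro h4 i h5
          exact h4 i i.2 ((h2 i).1 h5)
      by_cases h6 : ∀ i, g i ≠ x m i
      · rw [if_pos h6, if_pos (h4.1 h6), mul_one]
      · rw [if_neg h6, if_neg (fun h => h6 (h4.2 h)), mul_zero]
    simp_rw [e2]
    rw [Finset.sum_comm]
    refine Finset.sum_congr rfl fun g _ => ?_
    rw [← Finset.mul_sum]
    congr 1
    simp only [hA]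
    rw [Finset.sum_boole]
  have h4 : G * ∑ n ∈ range N, V n ^ 2 * A n ≤ G * (Cst * ∑ n ∈ range N, V n ^ 2) := by
    calc G * ∑ n ∈ range N, V n ^ 2 * A n = _ := h1
      _ ≤ ∑ n ∈ range N, Cst * ∑ g : (∀ i : S, ZMod (i : ℕ)), V (n + u g) ^ 2 :=
          Finset.sum_le_sum fun n _ => h3 n
      _ = Cst * (G * ∑ n ∈ range N, V n ^ 2) := by rw [← Finset.mul_sum, h2]
      _ = _ := by ring
  exact le_of_mul_le_mul_left h4 hcard

end Pool.Agent.K4H10.MT
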