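import Pool.Agent.K4H10.MT.S2
import Pool.Agent.K4H10.MT.C1

set_option autoImplicit false
set_option linter.unusedSectionVars false

/-! # The final bound -/

namespace Pool.Agent.K4H10.MT

open Finset Filter Pool.Agent.K4H10.BR Pool.Agent.K4H10.EX

open scoped Classical Topology

theorem sum_log_dvd (b : Finset ℕ) (hb : ∀ p ∈ b, p.Prime) (D : ℤ) (hD : D ≠ 0)
    (hbD : ∀ p ∈ b, (p : ℤ) ∣ D) : ∑ p ∈ b, Real.log (p : ℕ) ≤ Real.log |(D : ℝ)| := by
  have h1 : ∏ p ∈ b, p ∣ D.natAbs := by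
    apply Finset.prod_primes_dvd
    · intro p hp
      exact (hb p hp).prime
    · intro p hp
      exact Int.natCast_dvd.1 (hbD p hp)
  have h2 : ∏ p ∈ b, p ≤ D.natAbs := Nat.le_of_dvd (Int.natAbs_pos.2 hD) h1
  have h3 : ∑ p ∈ b, Real.log (p : ℕ) = Real.log ((∏ p ∈ b, p : ℕ) : ℝ) := by
    push_cast
    rw [Real.log_prod]
    intro p hp
    have := (hb p hp).pos
    positivity
  rw [h3]
  apply Real.log_le_log
  · exact_mod_cast Finset.prod_pos fun p hp => (hb p hp).pos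
  · have h4 : ((∏ p ∈ b, p : ℕ) : ℝ) ≤ ((D.natAbs : ℕ) : ℝ) := by exact_mod_cast h2
    rwa [Nat.cast_natAbs, Int.cast_abs] at h4

/-- the limit of the constants -/
theorem f_lim (k : ℕ) (δ A₀ e K : ℝ) :
    Tendsto (fun L : ℝ => Real.exp (K * L / ((L - 1) * Real.log L)) *
      (Real.exp (L / ((L - 1) * Real.log L)) * (Real.exp (L / ((L - 1) * Real.log L)) * (1 + δ) *
        (1 / ((k : ℝ) - 1) * Real.log k + A₀ * Real.log L / L / e))) *
        (k * (e + L / (L - 1)))) atTop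
      (𝓝 (1 * (1 * (1 * (1 + δ) * (1 / ((k : ℝ) - 1) * Real.log k + 0))) * (k * (e + 1)))) := by
  have h1 : Tendsto (fun L : ℝ => L / (L - 1)) atTop (𝓝 1) := by
    have h2 : Tendsto (fun L : ℝ => 1 + 1 / (L - 1)) atTop (𝓝 (1 + 0)) := by
      apply Tendsto.const_add
      have : Tendsto (fun L : ℝ => L - 1) atTop atTop := tendsto_atTop_add_const_right _ _ tendsto_id
      simpa [Pi.inv_def] using this.inv_tendsto_atTop
    rw [add_zero] at h2
    refine h2.congr' ?_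
    filter_upwards [eventually_gt_atTop (1:ℝ)] with L hL
    have : L - 1 ≠ 0 := by linarith
    field_simp
    ring
  have h2 : Tendsto (fun L : ℝ => (Real.log L)⁻¹) atTop (𝓝 0) :=
    Real.tendsto_log_atTop.inv_tendsto_atTop
  have h3 : ∀ K : ℝ, Tendsto (fun L : ℝ => Real.exp (K * L / ((L - 1) * Real.log L))) atTop
      (𝓝 1) := by
    intro K
    have h4 : Tendsto (fun L : ℝ => K * (L / (L - 1)) * (Real.log L)⁻¹) atTop
        (𝓝 (K * 1 * 0)) := (h1.const_mul K).mul h2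
    have h5 := (Real.continuous_exp.tendsto (K * 1 * 0)).comp h4
    rw [mul_zero, Real.exp_zero] at h5
    refine h5.congr fun L => ?_
    show Real.exp (K * (L / (L - 1)) * (Real.log L)⁻¹) = _
    congr 1
    rw [div_eq_mul_inv, div_eq_mul_inv, mul_inv]
    ring
  have h3' : Tendsto (fun L : ℝ => Real.exp (L / ((L - 1) * Real.log L))) atTop (𝓝 1) := by
    refine (h3 1).congr fun L => ?_
    rw [one_mul]
  have h4 : Tendsto (fun L : ℝ => A₀ * Real.log L / L / e) atTop (𝓝 0) := by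
    have h5 : Tendsto (fun L : ℝ => Real.log L / L) atTop (𝓝 0) := by
      have := Real.isLittleO_log_id_atTop.tendsto_div_nhds_zero
      simpa using this
    have h6 := h5.const_mul (A₀ / e)
    rw [mul_zero] at h6
    refine h6.congr fun L => ?_
    ring
  exact ((h3 K).mul (h3'.mul ((h3'.mul_const (1 + δ)).mul (tendsto_const_nhds.add h4)))).mul
    ((tendsto_const_nhds.add h1).const_mul (k : ℝ))

theorem final (k : ℕ) (hk : 2 ≤ k) (ε : ℝ) (hε : 0 < ε) (A : ℝ) (hA : 0 ≤ A) : ∃ R₀ : ℝ,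
    ∀ R : ℝ, R₀ ≤ R → ∀ a b : Fin k → ℤ, (∀ i, a i ≠ 0) →
    (∀ i j, i ≠ j → a i * b j ≠ a j * b i) → (∀ i, |(a i : ℝ)| ≤ R ^ A ∧ |(b i : ℝ)| ≤ R ^ A) →
    ∀ N : ℕ, 0 < N →
    (∀ d : ℕ, 0 < d → (d : ℝ) ≤ R → d ∣ N) → ∀ V : ℤ → ℝ, V ∈ Level R →
    ∑ n ∈ range N, V n ^ 2 * (((univ : Finset (Fin k)).filter
        (fun m => ∀ p : ℕ, p.Prime → (p : ℝ) ≤ R → ¬ (p : ℤ) ∣ a m * n + b m)).card : ℝ) ≤
      ((k / ((k : ℝ) - 1) * Real.log k + ε) * Real.log R *
        ∏ p ∈ (Icc 1 ⌊R⌋₊).filter Nat.Prime, (1 - 1 / (p : ℝ))) * ∑ n ∈ range N, V n ^ 2 := by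
  have hk1 : (1:ℝ) ≤ (k : ℝ) - 1 := by
    have : (2:ℝ) ≤ k := by exact_mod_cast hk
    linarith
  have hlk : 0 ≤ Real.log k := Real.log_nonneg (by linarith)
  set c : ℝ := k / ((k : ℝ) - 1) * Real.log k with hc
  have hc0 : 0 ≤ c := by
    have : (0:ℝ) ≤ k := Nat.cast_nonneg _
    rw [hc]; positivity
  set δ : ℝ := min 1 (ε / (4 * (c + 1))) with hδ
  have hδ0 : 0 < δ := by
    rw [hδ]; apply lt_min one_pos; positivity
  have hδ1 : δ ≤ 1 := min_le_left _ _
  have hδ2 : δ * (4 * (c + 1)) ≤ ε := by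
    have : δ ≤ ε / (4 * (c + 1)) := min_le_right _ _
    rwa [le_div_iff₀ (by positivity)] at this
  obtain ⟨A₀, hA₀, hrb⟩ := rough_bound δ hδ0 hδ1
  set K : ℝ := (k : ℝ) ^ 2 * (2 * A + 1) with hK
  have hK0 : 0 ≤ K := by rw [hK]; positivity
  have hlim := f_lim k δ A₀ δ K
  have hlt : 1 * (1 * (1 * (1 + δ) * (1 / ((k : ℝ) - 1) * Real.log k + 0))) * (k * (δ + 1)) <
      c + ε := by
    have e1 : 1 * (1 * (1 * (1 + δ) * (1 / ((k : ℝ) - 1) * Real.log k + 0))) * (k * (δ + 1)) =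
        c * (1 + δ) ^ 2 := by
      rw [hc]; ring
    rw [e1]
    have e2 : c * (1 + δ) ^ 2 = c + c * δ * (2 + δ) := by ring
    rw [e2]
    have e3 : c * δ * (2 + δ) ≤ c * δ * 3 := by
      apply mul_le_mul_of_nonneg_left (by linarith)
      exact mul_nonneg hc0 hδ0.le
    have e4 : c * δ * 3 < δ * (4 * (c + 1)) := by nlinarith
    linarith
  obtain ⟨L₀, hL₀⟩ := eventually_atTop.1 (hlim.eventually_lt_const hlt)
  refine ⟨Real.exp (max 3 L₀), fun R hR a b ha0 hab0 habR N hN hNd V hV => ?_⟩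
  have hR0 : 0 < R := (Real.exp_pos _).trans_le hR
  set L : ℝ := Real.log R with hL
  have hLmax : max 3 L₀ ≤ L := by
    rw [hL, Real.le_log_iff_exp_le hR0]; exact hR
  have hL3 : 3 ≤ L := (le_max_left _ _).trans hLmax
  have hfL := hL₀ L ((le_max_right _ _).trans hLmax)
  have hLR : L ≤ R := by
    have := Real.log_le_sub_one_of_pos hR0
    linarith
  have hR1 : 1 ≤ R := by linarith
  have hlL : 0 < Real.log L := Real.log_pos (by linarith)
  -- the primes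
  set Pall := (Icc 1 ⌊R⌋₊).filter Nat.Prime with hPall
  set D : Fin k × Fin k → ℤ := fun t =>
    if t.1 = t.2 then a t.1 else a t.1 * b t.2 - a t.2 * b t.1 with hD
  have hD0 : ∀ t, D t ≠ 0 := by
    intro t
    simp only [hD]
    split_ifs with ht
    · exact ha0 _
    · exact sub_ne_zero.2 (hab0 _ _ ht)
  have hDR : ∀ t, |(D t : ℝ)| ≤ R ^ (2 * A + 1) := by
    intro t
    have hRA : 1 ≤ R ^ A := Real.one_le_rpow hR1 hA
    have hRe : R ^ (2 * A + 1) = R ^ A * R ^ A * R := by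
      rw [Real.rpow_add hR0, Real.rpow_one, two_mul, Real.rpow_add hR0]
    have hR3 : 3 ≤ R := hL3.trans hLR
    rw [hRe]
    simp only [hD]
    split_ifs with ht
    · refine (habR t.1).1.trans ?_
      nlinarith
    · push_cast
      have h1 := (habR t.1).1
      have h2 := (habR t.2).2
      have h3 := (habR t.2).1
      have h4 := (habR t.1).2
      have h5 : |(a t.1 : ℝ) * b t.2 - a t.2 * b t.1| ≤ |(a t.1 : ℝ)| * |(b t.2 : ℝ)| +
          |(a t.2 : ℝ)| * |(b t.1 : ℝ)| := by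
        rw [← abs_mul, ← abs_mul]
        exact abs_sub _ _
      have h6 : |(a t.1 : ℝ)| * |(b t.2 : ℝ)| ≤ R ^ A * R ^ A :=
        mul_le_mul h1 h2 (abs_nonneg _) (by linarith)
      have h7 : |(a t.2 : ℝ)| * |(b t.1 : ℝ)| ≤ R ^ A * R ^ A :=
        mul_le_mul h3 h4 (abs_nonneg _) (by linarith)
      have h8 : 0 ≤ R ^ A * R ^ A := by positivity
      nlinarith
  set bad := Pall.filter (fun p : ℕ => L < (p : ℝ) ∧ ∃ t, (p : ℤ) ∣ D t) with hbad
  set S := Pall.filter (fun p : ℕ => L < (p : ℝ) ∧ ¬ ∃ t, (p : ℤ) ∣ D t) with hSdef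
  have hPp : ∀ p ∈ Pall, p.Prime := fun p hp => (mem_filter.1 hp).2
  have hS : ∀ p ∈ S, p.Prime := fun p hp => hPp p (mem_filter.1 hp).1
  have hSw : ∀ p ∈ S, L < (p : ℕ) := fun p hp => (mem_filter.1 hp).2.1
  have hPR : ∀ p ∈ Pall, ((p : ℕ) : ℝ) ≤ R := fun p hp =>
    (Nat.cast_le.2 (mem_Icc.1 (mem_filter.1 hp).1).2).trans (Nat.floor_le hR0.le)
  have hSR : ∀ p ∈ S, ((p : ℕ) : ℝ) ≤ R := fun p hp => hPR p (mem_filter.1 hp).1
  have hne : ∀ i : S, NeZero (i : ℕ) := fun i => ⟨(hS i i.2).ne_zero⟩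
  have haS : ∀ p ∈ S, ∀ i, ¬ ((p : ℕ) : ℤ) ∣ a i := by
    intro p hp i hd
    exact (mem_filter.1 hp).2.2 ⟨(i, i), by simpa [hD] using hd⟩
  have habS : ∀ p ∈ S, ∀ i j, ((p : ℕ) : ℤ) ∣ a i * b j - a j * b i → i = j := by
    intro p hp i j hd
    by_contra hij
    exact (mem_filter.1 hp).2.2 ⟨(i, j), by simpa [hD, hij] using hd⟩
  -- product over the bad primes
  have hbadlog : ∑ p ∈ bad, Real.log (p : ℕ) ≤ K * L := by
    have h1 : ∑ p ∈ bad, Real.log (p : ℕ) ≤ ∑ t ∈ (univ : Finset (Fin k × Fin k)),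
          ∑ p ∈ bad.filter (fun p : ℕ => (p : ℤ) ∣ D t), Real.log (p : ℕ) := by
      simp_rw [Finset.sum_filter (s := bad)]
      rw [Finset.sum_comm]
      refine Finset.sum_le_sum fun p hp => ?_
      obtain ⟨t, hd⟩ := (mem_filter.1 hp).2.2
      refine le_trans ?_ (Finset.single_le_sum (f := fun t : Fin k × Fin k =>
        if (p : ℤ) ∣ D t then Real.log (p : ℕ) else 0) ?_ (mem_univ t))
      · show _ ≤ if (p : ℤ) ∣ D t then Real.log (p : ℕ) else 0
        rw [if_pos hd]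
      · intro t _
        show 0 ≤ if (p : ℤ) ∣ D t then Real.log (p : ℕ) else 0
        split_ifs
        · exact Real.log_natCast_nonneg _
        · exact le_rfl
    refine h1.trans ?_
    have h2 : ∀ t ∈ (univ : Finset (Fin k × Fin k)),
        ∑ p ∈ bad.filter (fun p : ℕ => (p : ℤ) ∣ D t), Real.log (p : ℕ) ≤ (2 * A + 1) * L := by
      intro t _
      refine (sum_log_dvd _ (fun p hp => hPp p (mem_filter.1 (mem_filter.1 hp).1).1) _ (hD0 t)
        (fun p hp => (mem_filter.1 hp).2)).trans ?_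
      have h4 : 0 < |(D t : ℝ)| := by
        rw [abs_pos]
        exact_mod_cast hD0 t
      refine (Real.log_le_log h4 (hDR t)).trans (le_of_eq ?_)
      rw [Real.log_rpow hR0]
    refine (Finset.sum_le_card_nsmul _ _ _ h2).trans (le_of_eq ?_)
    rw [nsmul_eq_mul, Finset.card_univ, Fintype.card_prod, Fintype.card_fin, hK]
    push_cast
    ring
  have hbadprod : ∏ p ∈ bad, ((p : ℝ) / ((p : ℝ) - 1)) ≤
      Real.exp (K * L / ((L - 1) * Real.log L)) := by
    have h1 := prod_ratio bad L hL3 (fun p hp => (mem_filter.1 hp).2.1) (K * L)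
      (Finset.univ : Finset bad) (by
        rw [Finset.sum_coe_sort bad (fun p => Real.log (p : ℕ))]
        exact hbadlog)
    rwa [Finset.prod_coe_sort bad (fun p => (p : ℝ) / ((p : ℝ) - 1))] at h1
  -- splitting the product
  have hsplit : (∏ p ∈ S, (1 - 1 / (p : ℝ))) = (∏ p ∈ Pall, (1 - 1 / (p : ℝ))) * MP L *
      ∏ p ∈ bad, ((p : ℝ) / ((p : ℝ) - 1)) := by
    have h1 : ∏ p ∈ Pall, (1 - 1 / (p : ℝ)) = (∏ p ∈ Pall.filter (fun p : ℕ => L < (p : ℝ)),
        (1 - 1 / (p : ℝ))) * ∏ p ∈ Pall.filter (fun p : ℕ => ¬ L < (p : ℝ)), (1 - 1 / (p : ℝ)) :=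
      (Finset.prod_filter_mul_prod_filter_not _ _ _).symm
    have h2 : ∏ p ∈ Pall.filter (fun p : ℕ => L < (p : ℝ)), (1 - 1 / (p : ℝ)) =
        (∏ p ∈ bad, (1 - 1 / (p : ℝ))) * ∏ p ∈ S, (1 - 1 / (p : ℝ)) := by
      rw [hbad, hSdef, ← Finset.filter_filter, ← Finset.filter_filter]
      exact (Finset.prod_filter_mul_prod_filter_not _ _ _).symm
    have h3 : (∏ p ∈ Pall.filter (fun p : ℕ => ¬ L < (p : ℝ)), (1 - 1 / (p : ℝ))) * MP L = 1 := by
      unfold MP
      have e1 : Pall.filter (fun p : ℕ => ¬ L < (p : ℝ)) = (Icc 1 ⌊L⌋₊).filter Nat.Prime := by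
        ext p
        simp only [hPall, mem_filter, mem_Icc, not_lt]
        constructor
        · rintro ⟨⟨⟨h1, _⟩, h2⟩, h3⟩
          exact ⟨⟨h1, Nat.le_floor h3⟩, h2⟩
        · rintro ⟨⟨h1, h2⟩, h3⟩
          have h4 : (p : ℝ) ≤ L := (Nat.cast_le.2 h2).trans (Nat.floor_le (by linarith))
          exact ⟨⟨⟨h1, Nat.le_floor (h4.trans hLR)⟩, h3⟩, h4⟩
      rw [e1, ← Finset.prod_mul_distrib]
      apply Finset.prod_eq_one
      intro p hp
      have hp2 : (2:ℝ) ≤ p := by exact_mod_cast (mem_filter.1 hp).2.two_le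
      have h5 : (1:ℝ) - 1 / p ≠ 0 := by
        have : (1:ℝ) / p ≤ 1 / 2 := one_div_le_one_div_of_le (by norm_num) hp2
        intro h0; linarith
      have h6 : (1:ℝ) - (p : ℝ)⁻¹ ≠ 0 := by rwa [one_div] at h5
      rw [one_div]
      exact mul_inv_cancel₀ h6
    have h4 : (∏ p ∈ bad, (1 - 1 / (p : ℝ))) * ∏ p ∈ bad, ((p : ℝ) / ((p : ℝ) - 1)) = 1 := by
      rw [← Finset.prod_mul_distrib]
      apply Finset.prod_eq_one
      intro p hp
      have hp2 : (2:ℝ) ≤ p := by exact_mod_cast (hPp p (mem_filter.1 hp).1).two_le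
      have h5 : (p:ℝ) ≠ 0 := by linarith
      have h6 : (p:ℝ) - 1 ≠ 0 := by intro h0; linarith
      field_simp
    rw [h1, h2]
    calc (∏ p ∈ S, (1 - 1 / (p : ℝ))) = ((∏ p ∈ bad, (1 - 1 / (p : ℝ))) *
          ∏ p ∈ bad, ((p : ℝ) / ((p : ℝ) - 1))) *
          ((∏ p ∈ Pall.filter (fun p : ℕ => ¬ L < (p : ℝ)), (1 - 1 / (p : ℝ))) * MP L) *
          ∏ p ∈ S, (1 - 1 / (p : ℝ)) := by rw [h3, h4]; ring
      _ = _ := by ring
  have hM := MP_pos L
  have hPallpos : 0 ≤ ∏ p ∈ Pall, (1 - 1 / (p : ℝ)) := by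
    apply Finset.prod_nonneg
    intro p hp
    have hp1 : (1:ℝ) ≤ p := by exact_mod_cast (hPp p hp).one_lt.le
    have : (1:ℝ) / p ≤ 1 := by rw [div_le_one (by linarith)]; exact hp1
    linarith
  -- the constant
  set Cst : ℝ := (∏ p ∈ S, (1 - 1 / (p : ℝ))) *
      ((Real.exp (L / ((L - 1) * Real.log L)) * (Real.exp (L / ((L - 1) * Real.log L)) *
        ((1 + δ) * L / MP L) * (1 / ((k : ℝ) - 1) * Real.log k + A₀ * Real.log L / L / δ))) *
        (k * (δ + L / (L - 1)))) with hCst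
  have hCle : Cst ≤ (c + ε) * L * ∏ p ∈ Pall, (1 - 1 / (p : ℝ)) := by
    set E : ℝ := Real.exp (L / ((L - 1) * Real.log L)) with hE
    set X : ℝ := (E * (E * (1 + δ) * (1 / ((k : ℝ) - 1) * Real.log k + A₀ * Real.log L / L / δ))) *
        (k * (δ + L / (L - 1))) with hX
    have hX0 : 0 ≤ X := by
      have : 0 < L - 1 := by linarith
      have hL0 : 0 < L := by linarith
      rw [hX]; positivity
    have e1 : Cst = (∏ p ∈ Pall, (1 - 1 / (p : ℝ))) * L *
        ((∏ p ∈ bad, ((p : ℝ) / ((p : ℝ) - 1))) * X) := by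
      rw [hCst, hsplit, hX]
      generalize 1 / ((k : ℝ) - 1) * Real.log k + A₀ * Real.log L / L / δ = Q
      generalize (k : ℝ) * (δ + L / (L - 1)) = Y
      generalize (∏ p ∈ Pall, (1 - 1 / (p : ℝ))) = P
      generalize (∏ p ∈ bad, ((p : ℝ) / ((p : ℝ) - 1))) = B
      have hM' : MP L * ((1 + δ) * L / MP L) = (1 + δ) * L := by
        have := hM.ne'
        field_simp
      calc P * MP L * B * (E * (E * ((1 + δ) * L / MP L) * Q) * Y) =
          P * B * (E * (E * (MP L * ((1 + δ) * L / MP L)) * Q) * Y) := by ring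
        _ = _ := by rw [hM']; ring
    have e2 : (∏ p ∈ bad, ((p : ℝ) / ((p : ℝ) - 1))) * X ≤ c + ε := by
      calc (∏ p ∈ bad, ((p : ℝ) / ((p : ℝ) - 1))) * X ≤
          Real.exp (K * L / ((L - 1) * Real.log L)) * X := mul_le_mul_of_nonneg_right hbadprod hX0
        _ ≤ c + ε := by
          rw [hX, ← mul_assoc]
          exact hfL.le
    rw [e1]
    calc (∏ p ∈ Pall, (1 - 1 / (p : ℝ))) * L *
        ((∏ p ∈ bad, ((p : ℝ) / ((p : ℝ) - 1))) * X) ≤
        (∏ p ∈ Pall, (1 - 1 / (p : ℝ))) * L * (c + ε) :=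
          mul_le_mul_of_nonneg_left e2 (mul_nonneg hPallpos (by linarith))
      _ = _ := by ring
  have havg := crt_avg S hS R N hN hNd hSR k a b haS habS Cst (by
    intro x hx V' hV'
    have h1 := hrb L hL3 S hS hSw L (by linarith) δ hδ0 k hk x hx V' hV'
    refine h1.trans (le_of_eq ?_)
    rw [hCst]
    ring) V hV
  have hV2 : 0 ≤ ∑ n ∈ range N, V n ^ 2 := Finset.sum_nonneg fun n _ => sq_nonneg _
  refine le_trans ?_ (havg.trans (mul_le_mul_of_nonneg_right hCle hV2))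
  refine Finset.sum_le_sum fun n _ => ?_
  apply mul_le_mul_of_nonneg_left _ (sq_nonneg _)
  have : ((univ : Finset (Fin k)).filter
        (fun m => ∀ p : ℕ, p.Prime → (p : ℝ) ≤ R → ¬ (p : ℤ) ∣ a m * n + b m)).card ≤
      ((univ : Finset (Fin k)).filter (fun m => ∀ p ∈ S,
        ¬ ((p : ℕ) : ℤ) ∣ a m * n + b m)).card := by
    apply Finset.card_le_card
    intro m hm
    rw [mem_filter] at hm ⊢
    exact ⟨hm.1, fun p hp => hm.2 p (hS p hp) (hSR p hp)⟩
  exact_mod_cast this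

end Pool.Agent.K4H10.MT
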