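import Mathlib

set_option autoImplicit false
set_option linter.unusedSectionVars false

/-! # A partial summation -/

namespace Pool.Agent.K4H10.MT

open Finset MeasureTheory

theorem ker_deriv (c B u : ℝ) (hu : c + B * u ≠ 0) :
    HasDerivAt (fun u => -(1 / (c + B * u))) (B / (c + B * u) ^ 2) u := by
  have h1 : HasDerivAt (fun u => c + B * u) B u := by
    simpa using ((hasDerivAt_id u).const_mul B).const_add c
  have h2 := h1.inv hu
  have h3 := h2.neg
  refine (h3.congr_deriv ?_).congr_of_eventuallyEq ?_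
  · ring
  · exact Filter.Eventually.of_forall fun v => by simp

theorem ker_int (c B t T : ℝ) (hc : 0 < c) (hB : 0 < B) (ht : 0 ≤ t) (htT : t ≤ T) :
    ∫ u in t..T, B / (c + B * u) ^ 2 = 1 / (c + B * t) - 1 / (c + B * T) := by
  have hpos : ∀ u ∈ Set.uIcc t T, c + B * u ≠ 0 := by
    intro u hu
    rw [Set.uIcc_of_le htT] at hu
    have : 0 ≤ B * u := mul_nonneg hB.le (ht.trans hu.1)
    linarith
  rw [intervalIntegral.integral_eq_sub_of_hasDerivAt (fun u hu => ker_deriv c B u (hpos u hu))]
  · ring
  · apply ContinuousOn.intervalIntegrable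
    apply ContinuousOn.div continuousOn_const (by fun_prop)
    intro u hu
    exact pow_ne_zero 2 (hpos u hu)

theorem ker_cont (c B T : ℝ) (hc : 0 < c) (hB : 0 < B) (s : ℝ) (hs : 0 ≤ s) (hsT : s ≤ T) :
    ContinuousOn (fun u : ℝ => B / (c + B * u) ^ 2) (Set.uIcc s T) := by
  apply ContinuousOn.div continuousOn_const (by fun_prop)
  intro u hu
  rw [Set.uIcc_of_le hsT] at hu
  have : 0 ≤ B * u := mul_nonneg hB.le (hs.trans hu.1)
  apply pow_ne_zero
  linarith

theorem step_int (c B t T : ℝ) (hc : 0 < c) (hB : 0 < B) (ht : 0 ≤ t) (htT : t ≤ T) :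
    IntervalIntegrable (fun u => if t < u then B / (c + B * u) ^ 2 else 0) volume 0 T ∧
    ∫ u in (0:ℝ)..T, (if t < u then B / (c + B * u) ^ 2 else 0) =
      1 / (c + B * t) - 1 / (c + B * T) := by
  have h1 : IntervalIntegrable (fun u => if t < u then B / (c + B * u) ^ 2 else 0) volume 0 t := by
    refine (intervalIntegrable_const (c := (0:ℝ))).congr ?_
    intro u hu
    rw [Set.uIoc_of_le ht] at hu
    have : ¬ t < u := not_lt.2 hu.2
    simp [this]
  have h2 : IntervalIntegrable (fun u => if t < u then B / (c + B * u) ^ 2 else 0) volume t T := by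
    refine (ker_cont c B T hc hB t ht htT).intervalIntegrable.congr ?_
    intro u hu
    rw [Set.uIoc_of_le htT] at hu
    simp [hu.1]
  refine ⟨h1.trans h2, ?_⟩
  rw [← intervalIntegral.integral_add_adjacent_intervals h1 h2]
  have e1 : ∫ u in (0:ℝ)..t, (if t < u then B / (c + B * u) ^ 2 else 0) = 0 := by
    rw [intervalIntegral.integral_congr_ae (g := fun _ => (0:ℝ))]
    · simp
    · refine Filter.Eventually.of_forall fun u hu => ?_
      rw [Set.uIoc_of_le ht] at hu
      have : ¬ t < u := not_lt.2 hu.2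
      simp [this]
  have e2 : ∫ u in t..T, (if t < u then B / (c + B * u) ^ 2 else 0) =
      ∫ u in t..T, B / (c + B * u) ^ 2 := by
    apply intervalIntegral.integral_congr_ae
    refine Filter.Eventually.of_forall fun u hu => ?_
    rw [Set.uIoc_of_le htT] at hu
    simp [hu.1]
  rw [e1, e2, ker_int c B t T hc hB ht htT, zero_add]

theorem abel {β : Type} (A : Finset β) (w t : β → ℝ) (hw : ∀ a ∈ A, 0 ≤ w a) (T : ℝ) (hT : 0 ≤ T)
    (ht : ∀ a ∈ A, 0 ≤ t a ∧ t a ≤ T) (g e : ℝ)
    (hG : ∀ u, 0 ≤ u → u ≤ T → ∑ a ∈ A with t a ≤ u, w a ≤ g * (u + e)) (c B : ℝ) (hc : 0 < c)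
    (hB : 0 < B) :
    ∑ a ∈ A, w a / (c + B * t a) ≤ g * (1 / B * Real.log ((c + B * T) / c) + e / c) := by
  have hcT : 0 < c + B * T := by
    have : 0 ≤ B * T := mul_nonneg hB.le hT
    linarith
  have h1 : ∑ a ∈ A, w a / (c + B * t a) = (∑ a ∈ A, w a) / (c + B * T) +
      ∫ u in (0:ℝ)..T, ∑ a ∈ A, w a * (if t a < u then B / (c + B * u) ^ 2 else 0) := by
    rw [intervalIntegral.integral_finsetSum]
    · rw [Finset.sum_div, ← Finset.sum_add_distrib]
      refine Finset.sum_congr rfl fun a ha => ?_
      rw [intervalIntegral.integral_const_mul,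
        (step_int c B (t a) T hc hB (ht a ha).1 (ht a ha).2).2]
      ring
    · intro a ha
      exact (step_int c B (t a) T hc hB (ht a ha).1 (ht a ha).2).1.const_mul _
  have h2 : ∫ u in (0:ℝ)..T, ∑ a ∈ A, w a * (if t a < u then B / (c + B * u) ^ 2 else 0) ≤
      ∫ u in (0:ℝ)..T, g * (u + e) * (B / (c + B * u) ^ 2) := by
    apply intervalIntegral.integral_mono_on hT
    · have hs := IntervalIntegrable.sum (μ := volume) (a := 0) (b := T) A
        (f := fun a u => w a * (if t a < u then B / (c + B * u) ^ 2 else 0))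
        (fun a ha => (step_int c B (t a) T hc hB (ht a ha).1 (ht a ha).2).1.const_mul _)
      refine hs.congr ?_
      intro u _
      simp only [Finset.sum_apply]
    · apply ContinuousOn.intervalIntegrable
      apply ContinuousOn.mul (by fun_prop)
      exact ker_cont c B T hc hB 0 le_rfl hT
    · intro u hu
      have e1 : ∑ a ∈ A, w a * (if t a < u then B / (c + B * u) ^ 2 else 0) =
          (∑ a ∈ A with t a < u, w a) * (B / (c + B * u) ^ 2) := by
        rw [Finset.sum_filter, Finset.sum_mul]
        refine Finset.sum_congr rfl fun a _ => ?_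
        split_ifs <;> ring
      rw [e1]
      apply mul_le_mul_of_nonneg_right _ (by positivity)
      refine le_trans ?_ (hG u hu.1 hu.2)
      apply Finset.sum_le_sum_of_subset_of_nonneg
      · intro a ha
        rw [mem_filter] at ha ⊢
        exact ⟨ha.1, ha.2.le⟩
      · intro a ha _
        exact hw a (mem_filter.1 ha).1
  have h3 : ∫ u in (0:ℝ)..T, g * (u + e) * (B / (c + B * u) ^ 2) =
      g * (-((T + e) / (c + B * T)) + e / c + 1 / B * Real.log ((c + B * T) / c)) := by
    have hpos : ∀ u ∈ Set.uIcc 0 T, c + B * u ≠ 0 := by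
      intro u hu
      rw [Set.uIcc_of_le hT] at hu
      have : 0 ≤ B * u := mul_nonneg hB.le hu.1
      linarith
    have hd : ∀ u ∈ Set.uIcc 0 T, HasDerivAt
        (fun u => g * (-((u + e) / (c + B * u)) + 1 / B * Real.log (c + B * u)))
        (g * (u + e) * (B / (c + B * u) ^ 2)) u := by
      intro u hu
      have h0 := hpos u hu
      have h1 : HasDerivAt (fun u => c + B * u) B u := by
        simpa using ((hasDerivAt_id u).const_mul B).const_add c
      have h2 : HasDerivAt (fun u => u + e) 1 u := (hasDerivAt_id u).add_const e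
      have h3 := ((h2.div h1 h0).neg.add ((h1.log h0).const_mul (1 / B))).const_mul g
      refine h3.congr_deriv ?_
      have hB' := hB.ne'
      field_simp
      ring
    rw [intervalIntegral.integral_eq_sub_of_hasDerivAt hd]
    · rw [Real.log_div hcT.ne' hc.ne']
      simp
      ring
    · apply ContinuousOn.intervalIntegrable
      apply ContinuousOn.mul (by fun_prop)
      exact ker_cont c B T hc hB 0 le_rfl hT
  have h4 : ∑ a ∈ A, w a ≤ g * (T + e) := by
    refine le_trans (le_of_eq ?_) (hG T hT le_rfl)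
    rw [Finset.filter_true_of_mem fun a ha => (ht a ha).2]
  have h5 : (∑ a ∈ A, w a) / (c + B * T) ≤ g * (T + e) / (c + B * T) :=
    div_le_div_of_nonneg_right h4 hcT.le
  rw [h1]
  refine (add_le_add h5 (h2.trans h3.le)).trans (le_of_eq ?_)
  ring

end Pool.Agent.K4H10.MT
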