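import Pool.Agent.K4H10.MT.A2
import Pool.Agent.K4H10.MT.S1
import Pool.Agent.K4H10.BR.Smooth

set_option autoImplicit false
set_option linter.unusedSectionVars false

/-! # The bound over the rough part -/

namespace Pool.Agent.K4H10.MT

open Finset Pool.Agent.K4H10.BR Pool.Agent.K4H10.EX

open scoped Classical

variable (S : Finset ℕ)

theorem prod_ratio (w : ℝ) (hw : 3 ≤ w) (hSw : ∀ p ∈ S, w < (p : ℕ))
    (L : ℝ) (a : Finset S) (ha : ∑ i ∈ a, Real.log ((i : ℕ) : ℝ) ≤ L) :
    ∏ i ∈ a, (((i : ℕ) : ℝ) / (((i : ℕ) : ℝ) - 1)) ≤ Real.exp (L / ((w - 1) * Real.log w)) := by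
  have hlw : 0 < Real.log w := Real.log_pos (by linarith)
  have h1 : ∏ i ∈ a, (((i : ℕ) : ℝ) / (((i : ℕ) : ℝ) - 1)) ≤ ∏ i ∈ a, Real.exp (1 / (w - 1)) := by
    apply Finset.prod_le_prod
    · intro i _
      have := hSw i i.2
      have h2 : 0 < ((i : ℕ) : ℝ) - 1 := by linarith
      positivity
    · intro i _
      have := hSw i i.2
      have h2 : 0 < ((i : ℕ) : ℝ) - 1 := by linarith
      have h3 : ((i : ℕ) : ℝ) / (((i : ℕ) : ℝ) - 1) = 1 / (((i : ℕ) : ℝ) - 1) + 1 := by
        field_simp
        ring
      rw [h3]
      refine (Real.add_one_le_exp _).trans (Real.exp_le_exp.2 ?_)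
      apply one_div_le_one_div_of_le (by linarith)
      linarith
  refine h1.trans ?_
  rw [Finset.prod_const, ← Real.exp_nat_mul]
  apply Real.exp_le_exp.2
  have h4 : (a.card : ℝ) * Real.log w ≤ L := by
    refine le_trans ?_ ha
    rw [← nsmul_eq_mul]
    apply Finset.card_nsmul_le_sum
    intro i _
    exact Real.log_le_log (by linarith) (hSw i i.2).le
  rw [mul_one_div, div_le_div_iff₀ (by linarith) (mul_pos (by linarith) hlw)]
  calc (a.card : ℝ) * ((w - 1) * Real.log w) = (a.card * Real.log w) * (w - 1) := by ring
    _ ≤ L * (w - 1) := mul_le_mul_of_nonneg_right h4 (by linarith)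

theorem rough_bound (δ : ℝ) (hδ : 0 < δ) (hδ1 : δ ≤ 1) : ∃ A : ℝ, 1 ≤ A ∧ ∀ w : ℝ, 3 ≤ w →
    ∀ S : Finset ℕ, (∀ p ∈ S, p.Prime) → (∀ p ∈ S, w < (p : ℕ)) → ∀ [∀ i : S, NeZero (i : ℕ)],
    ∀ L : ℝ, 0 < L → ∀ ε : ℝ, 0 < ε → ∀ k : ℕ, 2 ≤ k → ∀ x : Fin k → ∀ i : S, ZMod (i : ℕ),
    (∀ i, Function.Injective (fun m => x m i)) → ∀ V : (∀ i : S, ZMod (i : ℕ)) → ℝ,
    Lev (fun s : Finset S => ∑ i ∈ s, Real.log ((i : ℕ) : ℝ) ≤ L) V →
    ∑ m, ∑ ω with (∀ i, ω i ≠ x m i), V ω ^ 2 ≤ (∏ p ∈ S, (1 - 1 / (p : ℝ))) *
      ((Real.exp (L / ((w - 1) * Real.log w)) * (Real.exp (L / ((w - 1) * Real.log w)) *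
        ((1 + δ) * L / MP w) * (1 / ((k : ℝ) - 1) * Real.log k + A * Real.log w / L / ε))) *
        (k * (ε + w / (w - 1)) * ∑ ω, V ω ^ 2)) := by
  obtain ⟨A, hA1, hru⟩ := rough_upper δ hδ hδ1
  refine ⟨A, hA1, ?_⟩
  intro w hw S hS hSw _ L hL ε hε k hk x hx V hV
  have hlw : 0 < Real.log w := Real.log_pos (by linarith)
  have hM := MP_pos w
  have hw1 : 0 < w - 1 := by linarith
  have hk1 : (1:ℝ) ≤ (k : ℝ) - 1 := by
    have : (2:ℝ) ≤ k := by exact_mod_cast hk
    linarith
  have hlk : 0 ≤ Real.log k := Real.log_nonneg (by linarith)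
  set E : ℝ := Real.exp (L / ((w - 1) * Real.log w)) with hE
  have hE0 : 0 < E := Real.exp_pos _
  set q : S → ℝ := fun i => ((i : ℕ) : ℝ) with hq
  have hqw : ∀ i, w < q i := fun i => hSw i i.2
  have hq1 : ∀ i, 1 < q i := fun i => by linarith [hqw i]
  set Γ : ℝ := E * (E * ((1 + δ) * L / MP w) *
    (1 / ((k : ℝ) - 1) * Real.log k + A * Real.log w / L / ε)) with hΓ
  have hΓ0 : 0 ≤ Γ := by positivity
  have hell : ∀ i : S, 0 ≤ Real.log ((i : ℕ) : ℝ) := fun i => Real.log_natCast_nonneg _
  have hprodpos : ∀ s : Finset S, 0 < ∏ i ∈ s, (1 - 1 / q i) := by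
    intro s
    apply Finset.prod_pos
    intro i _
    have h0 : 0 < q i := by linarith [hq1 i]
    have : 1 / q i < 1 := by
      rw [div_lt_one h0]; exact hq1 i
    linarith
  have main := abs_upper (α := fun i : S => ZMod (i : ℕ)) q
    (fun i => by rw [ZMod.card]) hq1 (w / (w - 1)) (by rw [le_div_iff₀ hw1]; linarith)
    (fun i => by
      have h1 := hqw i
      rw [div_le_div_iff₀ (by linarith) hw1]
      linarith) x hx (fun i : S => Real.log ((i : ℕ) : ℝ)) hell L hL ε hε Γ hΓ0 (by
      intro s
      by_cases hs : ∑ i ∈ s, Real.log ((i : ℕ) : ℝ) ≤ L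
      · -- the main case
        set σ : ℝ := (∑ i ∈ s, Real.log ((i : ℕ) : ℝ)) / L with hσ
        have hσ1 : σ ≤ 1 := by rw [hσ, div_le_one hL]; exact hs
        have hσ0 : 0 ≤ σ := div_nonneg (Finset.sum_nonneg fun i _ => hell i) hL.le
        set A' := sᶜ.powerset.filter (fun a => ∑ i ∈ a ∪ s, Real.log ((i : ℕ) : ℝ) ≤ L) with hA'
        have hA'1 : ∀ a ∈ A', (∑ i ∈ a, Real.log ((i : ℕ) : ℝ)) +
            ∑ i ∈ s, Real.log ((i : ℕ) : ℝ) ≤ L := by
          intro a ha
          rw [hA', mem_filter, mem_powerset] at ha
          have h2 := ha.2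
          rwa [Finset.sum_union
            (Finset.disjoint_left.2 fun i hi => Finset.mem_compl.1 (ha.1 hi))] at h2
        have hwt : ∀ a : Finset S, ∑ i ∈ a, Real.log ((i : ℕ) : ℝ) ≤ L →
            ∏ i ∈ a, 1 / (q i - 1) ≤ E * ∏ i ∈ a, 1 / q i := by
          intro a ha
          have h1 := prod_ratio S w hw hSw L a ha
          have h2 : ∏ i ∈ a, 1 / (q i - 1) = (∏ i ∈ a, (q i / (q i - 1))) * ∏ i ∈ a, 1 / q i := by
            rw [← Finset.prod_mul_distrib]
            refine Finset.prod_congr rfl fun i _ => ?_
            have h0 : q i ≠ 0 := by linarith [hq1 i]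
            have h1 : q i - 1 ≠ 0 := by linarith [hq1 i]
            field_simp
          rw [h2]
          apply mul_le_mul_of_nonneg_right h1
          apply Finset.prod_nonneg
          intro i _
          have : 0 < q i := by linarith [hq1 i]
          positivity
        have hab := abel A' (fun a => ∏ i ∈ a, 1 / (q i - 1))
          (fun a => (∑ i ∈ a, Real.log ((i : ℕ) : ℝ)) / L) (fun a _ => by
            apply Finset.prod_nonneg
            intro i _
            have : 0 < q i - 1 := by linarith [hq1 i]
            positivity) (1 - σ) (by linarith) (fun a ha => by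
            refine ⟨div_nonneg (Finset.sum_nonneg fun i _ => hell i) hL.le, ?_⟩
            have h1 := hA'1 a ha
            rw [hσ, le_sub_iff_add_le, ← add_div, div_le_one hL]
            exact h1) (E * ((1 + δ) * L / MP w)) (A * Real.log w / L) (by
            intro u hu0 hu1
            have h1 := hru w hw S (fun p hp => ⟨hS p hp, hSw p hp⟩) (u * L) (by positivity)
            have h2 : ∑ a ∈ A'.filter (fun a : Finset S =>
                (∑ i ∈ a, Real.log ((i : ℕ) : ℝ)) / L ≤ u), ∏ i ∈ a, 1 / (q i - 1) ≤ E *
                ∑ s ∈ S.powerset.filter (fun s : Finset ℕ => ∑ p ∈ s, Real.log (p : ℕ) ≤ u * L),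
                  ∏ p ∈ s, 1 / (p : ℝ) := by
              calc ∑ a ∈ A'.filter (fun a : Finset S =>
                (∑ i ∈ a, Real.log ((i : ℕ) : ℝ)) / L ≤ u), ∏ i ∈ a, 1 / (q i - 1) ≤
                  ∑ a ∈ A'.filter (fun a : Finset S =>
                (∑ i ∈ a, Real.log ((i : ℕ) : ℝ)) / L ≤ u), E * ∏ i ∈ a, 1 / q i := by
                    apply Finset.sum_le_sum
                    intro a ha
                    rw [mem_filter] at ha
                    apply hwt
                    have h3 := hA'1 a ha.1
                    have h4 : 0 ≤ ∑ i ∈ s, Real.log ((i : ℕ) : ℝ) :=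
                      Finset.sum_nonneg fun i _ => hell i
                    linarith
                _ = E * ∑ t ∈ (A'.filter (fun a : Finset S =>
                      (∑ i ∈ a, Real.log ((i : ℕ) : ℝ)) / L ≤ u)).image
                      (fun a : Finset S => a.map (Function.Embedding.subtype (fun p => p ∈ S))),
                      ∏ p ∈ t, 1 / (p : ℝ) := by
                    rw [← Finset.mul_sum, Finset.sum_image]
                    · congr 1
                      refine Finset.sum_congr rfl fun a _ => ?_
                      rw [Finset.prod_map]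
                      rfl
                    · intro a _ a' _ haa
                      exact Finset.map_injective _ haa
                _ ≤ _ := by
                    apply mul_le_mul_of_nonneg_left _ hE0.le
                    apply Finset.sum_le_sum_of_subset_of_nonneg
                    · intro t ht
                      rw [mem_image] at ht
                      obtain ⟨a, ha, rfl⟩ := ht
                      rw [mem_filter] at ha
                      rw [mem_filter, mem_powerset]
                      refine ⟨?_, ?_⟩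
                      · intro p hp
                        rw [Finset.mem_map] at hp
                        obtain ⟨i, _, rfl⟩ := hp
                        exact i.2
                      · rw [Finset.sum_map]
                        have := ha.2
                        rw [div_le_iff₀ hL] at this
                        exact this
                    · intro t _ _
                      positivity
            refine h2.trans ((mul_le_mul_of_nonneg_left h1 hE0.le).trans (le_of_eq ?_))
            field_simp) (1 + ε - σ) ((k : ℝ) - 1) (by linarith) (by linarith)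
        rw [Fintype.card_fin]
        refine le_trans hab (le_trans (b := E * ((1 + δ) * L / MP w) *
            (1 / ((k : ℝ) - 1) * Real.log k + A * Real.log w / L / ε)) ?_ ?_)
        · apply mul_le_mul_of_nonneg_left _ (by positivity)
          apply add_le_add
          · apply mul_le_mul_of_nonneg_left _ (by positivity)
            apply Real.log_le_log
            · apply div_pos _ (by linarith)
              have : 0 ≤ ((k : ℝ) - 1) * (1 - σ) := mul_nonneg (by linarith) (by linarith)
              linarith
            · rw [div_le_iff₀ (by linarith)]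
              nlinarith
          · apply div_le_div_of_nonneg_left _ hε (by linarith)
            positivity
        · have h1 := prod_ratio S w hw hSw L s hs
          have h2 : (∏ i ∈ s, (q i / (q i - 1))) * ∏ i ∈ s, (1 - 1 / q i) = 1 := by
            rw [← Finset.prod_mul_distrib]
            apply Finset.prod_eq_one
            intro i _
            have h0 : q i ≠ 0 := by linarith [hq1 i]
            have h1 : q i - 1 ≠ 0 := by linarith [hq1 i]
            field_simp
          have h3 : 1 ≤ E * ∏ i ∈ s, (1 - 1 / q i) := by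
            refine h2.symm.le.trans ?_
            exact mul_le_mul_of_nonneg_right h1 (hprodpos s).le
          set Q : ℝ := E * ((1 + δ) * L / MP w) *
            (1 / ((k : ℝ) - 1) * Real.log k + A * Real.log w / L / ε) with hQ
          have hQ0 : 0 ≤ Q := by positivity
          calc Q = Q * 1 := (mul_one Q).symm
            _ ≤ Q * (E * ∏ i ∈ s, (1 - 1 / q i)) := mul_le_mul_of_nonneg_left h3 hQ0
            _ = Γ * ∏ i ∈ s, (1 - 1 / q i) := by rw [hΓ]; ring
      · -- empty sum
        have hempty : sᶜ.powerset.filter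
            (fun a => ∑ i ∈ a ∪ s, Real.log ((i : ℕ) : ℝ) ≤ L) = ∅ := by
          rw [Finset.filter_eq_empty_iff]
          intro a _ h
          apply hs
          refine le_trans ?_ h
          exact Finset.sum_le_sum_of_subset_of_nonneg Finset.subset_union_right
            fun i _ _ => hell i
        rw [hempty, Finset.sum_empty]
        exact mul_nonneg hΓ0 (hprodpos s).le) V hV
  have e1 : ∏ i : S, (1 - 1 / q i) = ∏ p ∈ S, (1 - 1 / (p : ℝ)) :=
    Finset.prod_coe_sort S (fun p => 1 - 1 / (p : ℝ))
  rw [e1, Fintype.card_fin] at main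
  exact main

end Pool.Agent.K4H10.MT
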